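import Pool.Agent.ABC.Sign

/-!
# Topological Hall theorem (Aharoni-Berger) by the Hopf trace formula

`Acy n C`: the augmented real chain complex of `C` is exact in face sizes `< n`.
-/

namespace ABC

open Finset

noncomputable section

variable {V : Type*} [Fintype V] [DecidableEq V]

/-- `f` is supported on the members of `C` of size `i` -/
def Sup (C : Finset V → Prop) (i : ℕ) (f : Ch V) : Prop := ∀ σ, f σ ≠ 0 → C σ ∧ σ.card = i

/-- exactness of the augmented chain complex of `C` at face sizes `< n` -/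
def Acy (n : ℕ) (C : Finset V → Prop) : Prop :=
  ∀ i < n, ∀ f : Ch V, Sup C i f → bd f = 0 → ∃ g : Ch V, Sup C (i + 1) g ∧ bd g = f

section ext
variable {E : Type*} [AddCommGroup E] [Module ℝ E]

/-- linear extension -/
def ext (P : Finset V → E) : Ch V →ₗ[ℝ] E where
  toFun f := ∑ σ, f σ • P σ
  map_add' f g := by
    simp only [Pi.add_apply, add_smul]
    rw [Finset.sum_add_distrib]
  map_smul' c f := by
    simp only [Pi.smul_apply, smul_eq_mul, mul_smul, RingHom.id_apply]
    rw [Finset.smul_sum]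

theorem ext_apply (P : Finset V → E) (f : Ch V) : ext P f = ∑ σ, f σ • P σ := rfl

theorem ext_del (P : Finset V → E) (σ : Finset V) : ext P (del σ) = P σ := by
  rw [ext_apply, Finset.sum_eq_single σ]
  · rw [del_self, one_smul]
  · intro τ _ h
    simp [del, h]
  · intro h; exact absurd (Finset.mem_univ _) h

theorem ext_bd_del (P : Finset V → E) (σ : Finset V) :
    ext P (bd (del σ)) = ∑ v ∈ σ, sg v (σ.erase v) • P (σ.erase v) := by
  rw [bd_del, map_sum]
  refine Finset.sum_congr rfl fun v _ => ?_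
  rw [map_smul, ext_del]

theorem ext_congr {P Q : Finset V → E} {f : Ch V} (h : ∀ σ, f σ ≠ 0 → P σ = Q σ) :
    ext P f = ext Q f := by
  rw [ext_apply, ext_apply]
  refine Finset.sum_congr rfl fun σ _ => ?_
  by_cases h0 : f σ = 0
  · simp [h0]
  · rw [h σ h0]

end ext

theorem bd_del_ne {c e : Finset V} (h : bd (del e) c ≠ 0) : ∃ v ∈ e, c = e.erase v := by
  rw [bd_del, Finset.sum_apply] at h
  obtain ⟨v, hv, h1⟩ := Finset.exists_ne_zero_of_sum_ne_zero h
  refine ⟨v, hv, ?_⟩
  by_contra h2
  exact h1 (by simp [del, h2])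

theorem ins_del_ne {v : V} {c e : Finset V} (h : ins v (del e) c ≠ 0) : v ∉ e ∧ c = insert v e := by
  rw [ins_apply] at h
  split_ifs at h with h1
  · have h2 : c.erase v = e := by
      by_contra h2
      exact h (by simp [del, h2])
    exact ⟨h2 ▸ Finset.notMem_erase v c, by rw [← h2, Finset.insert_erase h1]⟩
  · exact absurd rfl h

section matrix

variable {W W' : Type*} [Fintype W] [DecidableEq W] [Fintype W'] [DecidableEq W']

theorem sum_subtype_apply (q : Finset W → Prop) [Fintype {c // q c}] (T : Ch W →ₗ[ℝ] Ch W')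
    (g : Ch W) (hg : ∀ σ, g σ ≠ 0 → q σ) (c : Finset W') :
    ∑ e : {c // q c}, T (del e.1) c * g e.1 = T g c := by
  classical
  have h1 : T g c = ∑ e : Finset W, T (del e) c * g e := by
    conv_lhs => rw [sum_del g]
    rw [map_sum, Finset.sum_apply]
    refine Finset.sum_congr rfl fun e _ => ?_
    rw [map_smul, Pi.smul_apply, smul_eq_mul, mul_comm]
  rw [h1]
  have h2 : ∑ e : Finset W, T (del e) c * g e = ∑ e ∈ univ.filter q, T (del e) c * g e := by
    rw [Finset.sum_filter]
    refine Finset.sum_congr rfl fun e _ => ?_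
    by_cases h : q e
    · simp [h]
    · have : g e = 0 := by
        by_contra h0
        exact h (hg e h0)
      simp [h, this]
  rw [h2]
  exact (Finset.sum_subtype (univ.filter q) (fun x => by simp) (fun e => T (del e) c * g e)).symm

/-- The Hopf trace argument: a chain map of a cone (apex `F₀`) that is the identity on the empty
chain cannot have all other diagonal entries zero. -/
theorem hopf (q : Finset W → Prop) (F₀ : W) (hq0 : q ∅)
    (hqs : ∀ c, q c → ∀ v ∈ c, q (c.erase v)) (hqi : ∀ c, q c → q (insert F₀ c))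
    (G : Finset W → Ch W) (hGq : ∀ c, q c → ∀ e, G c e ≠ 0 → q e)
    (hGb : ∀ c, q c → bd (G c) = ext G (bd (del c)))
    (hG0 : G ∅ ∅ = 1) (hGd : ∀ c, q c → c ≠ ∅ → G c c = 0) : False := by
  classical
  let I := {c : Finset W // q c}
  let A : Matrix I I ℝ := fun c e => G e.1 c.1
  let D : Matrix I I ℝ := fun c e => bd (del e.1) c.1
  let H : Matrix I I ℝ := fun c e => ins F₀ (del e.1) c.1
  let S : Matrix I I ℝ := Matrix.diagonal (fun c : I => (-1 : ℝ) ^ c.1.card)
  have hbq : ∀ e, q e → ∀ σ, bd (del e) σ ≠ 0 → q σ := by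
    intro e he σ h
    obtain ⟨v, hv, rfl⟩ := bd_del_ne h
    exact hqs e he v hv
  have hiq : ∀ e, q e → ∀ σ, ins F₀ (del e) σ ≠ 0 → q σ := by
    intro e he σ h
    obtain ⟨_, rfl⟩ := ins_del_ne h
    exact hqi e he
  have hDA : D * A = A * D := by
    ext c e
    rw [Matrix.mul_apply, Matrix.mul_apply]
    have h1 : ∑ j, D c j * A j e = bd (G e.1) c.1 :=
      sum_subtype_apply q bd (G e.1) (hGq e.1 e.2) c.1
    have h2 : ∑ j, A c j * D j e = ext G (bd (del e.1)) c.1 := by
      rw [← sum_subtype_apply q (ext G) (bd (del e.1)) (hbq e.1 e.2) c.1]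
      refine Finset.sum_congr rfl fun j _ => ?_
      rw [ext_del]
    rw [h1, h2, hGb e.1 e.2]
  have hDH : D * H + H * D = 1 := by
    ext c e
    rw [Matrix.add_apply, Matrix.mul_apply, Matrix.mul_apply]
    have h1 : ∑ j, D c j * H j e = bd (ins F₀ (del e.1)) c.1 :=
      sum_subtype_apply q bd (ins F₀ (del e.1)) (hiq e.1 e.2) c.1
    have h2 : ∑ j, H c j * D j e = ins F₀ (bd (del e.1)) c.1 :=
      sum_subtype_apply q (ins F₀) (bd (del e.1)) (hbq e.1 e.2) c.1
    rw [h1, h2]
    have h3 := congrFun (bd_ins F₀ (del e.1)) c.1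
    rw [Pi.add_apply] at h3
    rw [h3, Matrix.one_apply]
    by_cases h : c = e
    · subst h; simp [del]
    · rw [if_neg h]
      have : c.1 ≠ e.1 := fun h' => h (Subtype.ext h')
      simp [del, this]
  have hSD : S * D = -(D * S) := by
    ext c e
    rw [Matrix.neg_apply, Matrix.diagonal_mul, Matrix.mul_diagonal]
    by_cases h : D c e = 0
    · rw [h]; ring
    · obtain ⟨v, hv, h1⟩ := bd_del_ne h
      have h2 : e.1.card = c.1.card + 1 := by
        rw [h1, Finset.card_erase_add_one hv]
      rw [h2, pow_succ]; ring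
  have htr : Matrix.trace (S * A) = 0 := by
    have h1 : S * A = S * A * D * H + S * A * H * D := by
      have : S * A = S * A * (D * H + H * D) := by rw [hDH, Matrix.mul_one]
      rw [Matrix.mul_add, ← Matrix.mul_assoc, ← Matrix.mul_assoc] at this
      exact this
    have h2 : Matrix.trace (S * A * H * D) = -Matrix.trace (S * A * D * H) := by
      rw [Matrix.trace_mul_comm]
      have e1 : D * (S * A * H) = -(S * A * D * H) := by
        have e2 : D * S = -(S * D) := by rw [hSD, neg_neg]
        calc D * (S * A * H) = (D * S) * A * H := by simp only [Matrix.mul_assoc]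
          _ = -(S * D) * A * H := by rw [e2]
          _ = -(S * (D * A) * H) := by simp only [Matrix.neg_mul, Matrix.mul_assoc]
          _ = -(S * (A * D) * H) := by rw [hDA]
          _ = -(S * A * D * H) := by simp only [Matrix.mul_assoc]
      rw [e1, Matrix.trace_neg]
    rw [h1, Matrix.trace_add, h2]
    ring
  have htr1 : Matrix.trace (S * A) = 1 := by
    unfold Matrix.trace
    rw [Finset.sum_eq_single (⟨∅, hq0⟩ : I)]
    · rw [Matrix.diag_apply, Matrix.diagonal_mul]
      simp [A, hG0]
    · intro c _ hc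
      rw [Matrix.diag_apply, Matrix.diagonal_mul]
      have : c.1 ≠ ∅ := fun h => hc (Subtype.ext h)
      have h2 : A c c = 0 := hGd c.1 c.2 this
      rw [h2, mul_zero]
    · intro h; exact absurd (Finset.mem_univ _) h
  rw [htr] at htr1
  exact zero_ne_one htr1

end matrix

section psi

variable (cl : Finset V → Finset V)

/-- the subdivision chain map composed with the closure -/
def psiN : ℕ → Finset V → Ch (Finset V)
  | 0, _ => del ∅
  | n + 1, σ => ins (cl σ) (∑ v ∈ σ, sg v (σ.erase v) • psiN n (σ.erase v))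

/-- the subdivision chain map composed with the closure -/
def psi (σ : Finset V) : Ch (Finset V) := psiN cl σ.card σ

theorem psi_empty : psi cl ∅ = del ∅ := rfl

theorem psi_ne {σ : Finset V} (h : σ.Nonempty) :
    psi cl σ = ins (cl σ) (ext (psi cl) (bd (del σ))) := by
  obtain ⟨n, hn⟩ : ∃ n, σ.card = n + 1 := ⟨σ.card - 1, by have := h.card_pos; omega⟩
  rw [ext_bd_del]
  unfold psi
  rw [hn]
  change ins (cl σ) (∑ v ∈ σ, sg v (σ.erase v) • psiN cl n (σ.erase v)) = _
  congr 1
  refine Finset.sum_congr rfl fun v hv => ?_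
  have : (σ.erase v).card = n := by rw [Finset.card_erase_of_mem hv, hn]; rfl
  rw [this]

theorem bd_psi (σ : Finset V) : bd (psi cl σ) = ext (psi cl) (bd (del σ)) := by
  induction hn : σ.card using Nat.strong_induction_on generalizing σ with
  | _ n ih =>
    rcases σ.eq_empty_or_nonempty with h | h
    · subst h
      rw [psi_empty, bd_del, ext_bd_del]
      simp
    · rw [psi_ne cl h]
      have h1 := bd_ins (cl σ) (ext (psi cl) (bd (del σ)))
      have h2 : bd (ext (psi cl) (bd (del σ))) = 0 := by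
        rw [ext_bd_del, map_sum]
        have h3 : ∀ v ∈ σ, bd (sg v (σ.erase v) • psi cl (σ.erase v)) =
            ext (psi cl) (bd (sg v (σ.erase v) • del (σ.erase v))) := by
          intro v hv
          rw [map_smul, ih _ (by rw [← hn]; exact Finset.card_erase_lt_of_mem hv) _ rfl, map_smul,
            map_smul]
        rw [Finset.sum_congr rfl h3, ← map_sum, ← map_sum, ← bd_del, bd_bd, map_zero]
      rw [h2, map_zero, add_zero] at h1
      exact h1

theorem psi_supp (hmono : ∀ σ τ : Finset V, σ ⊆ τ → cl σ ⊆ cl τ) (σ : Finset V)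
    (c : Finset (Finset V)) (h : psi cl σ c ≠ 0) :
    c.card = σ.card ∧ (∀ F ∈ c, ∃ τ ⊆ σ, τ.Nonempty ∧ F = cl τ) ∧
      (∀ F ∈ c, ∀ G ∈ c, F ⊆ G ∨ G ⊆ F) := by
  induction hn : σ.card using Nat.strong_induction_on generalizing σ c with
  | _ n ih =>
    rcases σ.eq_empty_or_nonempty with h0 | h0
    · subst h0
      rw [psi_empty] at h
      have : c = ∅ := by
        by_contra h1
        exact h (by simp [del, h1])
      subst this
      simp [← hn]
    · rw [psi_ne cl h0, ins_apply] at h
      split_ifs at h with h1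
      · have h2 : ext (psi cl) (bd (del σ)) (c.erase (cl σ)) ≠ 0 := right_ne_zero_of_mul h
        rw [ext_bd_del, Finset.sum_apply] at h2
        obtain ⟨v, hv, h3⟩ := Finset.exists_ne_zero_of_sum_ne_zero h2
        rw [Pi.smul_apply, smul_eq_mul] at h3
        have h4 := right_ne_zero_of_mul h3
        obtain ⟨i1, i2, i3⟩ := ih _ (by rw [← hn]; exact Finset.card_erase_lt_of_mem hv) _ _ h4 rfl
        have hc : c = insert (cl σ) (c.erase (cl σ)) := (Finset.insert_erase h1).symm
        have hle : ∀ F ∈ c.erase (cl σ), F ⊆ cl σ := by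
          intro F hF
          obtain ⟨τ, hτ, _, rfl⟩ := i2 F hF
          exact hmono _ _ (hτ.trans (Finset.erase_subset v σ))
        refine ⟨?_, ?_, ?_⟩
        · rw [hc, Finset.card_insert_of_notMem (Finset.notMem_erase _ _), i1,
            Finset.card_erase_add_one hv, hn]
        · intro F hF
          rw [hc, Finset.mem_insert] at hF
          rcases hF with rfl | hF
          · exact ⟨σ, subset_rfl, h0, rfl⟩
          · obtain ⟨τ, hτ, h5, rfl⟩ := i2 F hF
            exact ⟨τ, hτ.trans (Finset.erase_subset v σ), h5, rfl⟩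
        · intro F hF G hG
          rw [hc, Finset.mem_insert] at hF hG
          rcases hF with rfl | hF
          · rcases hG with rfl | hG
            · exact Or.inl subset_rfl
            · exact Or.inr (hle G hG)
          · rcases hG with rfl | hG
            · exact Or.inl (hle F hF)
            · exact i3 F hF G hG
      · exact absurd rfl h

end psi

section hall

variable (cl : Finset V → Finset V) (r : Finset V → ℕ) (m : ℕ)

/-- chains of closed sets of rank less than `m` -/
def Vc (c : Finset (Finset V)) : Prop :=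
  (∀ F ∈ c, cl F = F ∧ r F < m) ∧ (∀ F ∈ c, ∀ G ∈ c, F ⊆ G ∨ G ⊆ F)

theorem Vc.subset {c e : Finset (Finset V)} (h : Vc cl r m c) (he : e ⊆ c) : Vc cl r m e :=
  ⟨fun F hF => h.1 F (he hF), fun F hF G hG => h.2 F (he hF) G (he hG)⟩

theorem Vc.exists_min {c : Finset (Finset V)} (h : Vc cl r m c) (hc : c.Nonempty) :
    ∃ F ∈ c, ∀ G ∈ c, F ⊆ G := by
  obtain ⟨F, hF, hmin⟩ := Finset.exists_min_image c Finset.card hc
  refine ⟨F, hF, fun G hG => ?_⟩
  rcases h.2 F hF G hG with h1 | h1
  · exact h1
  · rw [Finset.eq_of_subset_of_card_le h1 (hmin G hG)]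

theorem Vc.card_le (hr : ∀ F G : Finset V, cl F = F → cl G = G → F ⊂ G → r F < r G)
    {c : Finset (Finset V)} (h : Vc cl r m c) {F : Finset V} (hF : F ∈ c) (hmin : ∀ G ∈ c, F ⊆ G) :
    c.card ≤ m - r F := by
  have h1 : ∀ A ∈ c, ∀ B ∈ c, r A = r B → A = B := by
    intro A hA B hB hAB
    by_contra hne
    rcases h.2 A hA B hB with h2 | h2
    · exact absurd hAB (hr A B (h.1 A hA).1 (h.1 B hB).1
        (Finset.ssubset_iff_subset_ne.mpr ⟨h2, hne⟩)).ne
    · exact absurd hAB.symm (hr B A (h.1 B hB).1 (h.1 A hA).1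
        (Finset.ssubset_iff_subset_ne.mpr ⟨h2, Ne.symm hne⟩)).ne
  calc c.card = (c.image r).card := (Finset.card_image_of_injOn fun A hA B hB h2 => h1 A hA B hB h2).symm
    _ ≤ (Finset.Ico (r F) m).card := by
      refine Finset.card_le_card fun x hx => ?_
      obtain ⟨A, hA, rfl⟩ := Finset.mem_image.mp hx
      rw [Finset.mem_Ico]
      refine ⟨?_, (h.1 A hA).2⟩
      rcases (hmin A hA).eq_or_ssubset with h2 | h2
      · rw [h2]
      · exact (hr F A (h.1 F hF).1 (h.1 A hA).1 h2).le
    _ = m - r F := by simp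

/-- existence of the carrier chain map -/
theorem exists_phi (hr : ∀ F G : Finset V, cl F = F → cl G = G → F ⊂ G → r F < r G)
    (C : Finset V → Prop) (hC0 : C ∅)
    (hA : ∀ F : Finset V, cl F = F → r F < m → Acy (m - r F) (fun σ => C σ ∧ Disjoint σ F)) (p : ℕ) :
    ∃ phi : Finset (Finset V) → Ch V, phi ∅ = del ∅ ∧ ∀ c, Vc cl r m c → c.card ≤ p →
      (∀ σ, phi c σ ≠ 0 → C σ ∧ σ.card = c.card ∧ ∀ F ∈ c, (∀ G ∈ c, F ⊆ G) → Disjoint σ F) ∧
      bd (phi c) = ext phi (bd (del c)) := by
  classical
  induction p with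
  | zero =>
    refine ⟨fun _ => del ∅, rfl, fun c _ hc => ?_⟩
    have hc0 : c = ∅ := Finset.card_eq_zero.mp (Nat.le_zero.mp hc)
    subst hc0
    refine ⟨fun σ h => ?_, ?_⟩
    · have : σ = ∅ := by
        by_contra h1
        exact h (by simp [del, h1])
      subst this
      exact ⟨hC0, by simp, by simp⟩
    · rw [bd_del, ext_bd_del]; simp
  | succ p ih =>
    obtain ⟨phi, h0, hphi⟩ := ih
    have key : ∀ c, Vc cl r m c → c.card = p + 1 → ∃ g : Ch V,
        (∀ σ, g σ ≠ 0 → C σ ∧ σ.card = c.card ∧ ∀ F ∈ c, (∀ G ∈ c, F ⊆ G) → Disjoint σ F) ∧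
        bd g = ext phi (bd (del c)) := by
      intro c hc hcard
      have hne : c.Nonempty := by rw [← Finset.card_pos]; omega
      obtain ⟨F₀, hF₀, hmin⟩ := hc.exists_min cl r m hne
      have hle := hc.card_le cl r m hr hF₀ hmin
      have hb0 : bd (ext phi (bd (del c))) = 0 := by
        rw [ext_bd_del, map_sum]
        have h3 : ∀ F ∈ c, bd (sg F (c.erase F) • phi (c.erase F)) =
            ext phi (bd (sg F (c.erase F) • del (c.erase F))) := by
          intro F hF
          have h4 : (c.erase F).card ≤ p := by rw [Finset.card_erase_of_mem hF, hcard]; omega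
          rw [map_smul, (hphi _ (hc.subset cl r m (Finset.erase_subset F c)) h4).2, map_smul,
            map_smul]
        rw [Finset.sum_congr rfl h3, ← map_sum, ← map_sum, ← bd_del, bd_bd, map_zero]
      have hsup : Sup (fun σ => C σ ∧ Disjoint σ F₀) p (ext phi (bd (del c))) := by
        intro σ hσ
        rw [ext_bd_del, Finset.sum_apply] at hσ
        obtain ⟨F, hF, h3⟩ := Finset.exists_ne_zero_of_sum_ne_zero hσ
        rw [Pi.smul_apply, smul_eq_mul] at h3
        have h4 := right_ne_zero_of_mul h3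
        have h5 : (c.erase F).card = p := by rw [Finset.card_erase_of_mem hF, hcard]; omega
        obtain ⟨h6, h7, h8⟩ := (hphi _ (hc.subset cl r m (Finset.erase_subset F c)) h5.le).1 σ h4
        refine ⟨⟨h6, ?_⟩, by rw [h7, h5]⟩
        rcases (c.erase F).eq_empty_or_nonempty with h9 | h9
        · rw [h9, Finset.card_empty] at h7
          rw [Finset.card_eq_zero.mp h7]
          exact Finset.disjoint_empty_left F₀
        · obtain ⟨F₁, hF₁, hmin₁⟩ :=
            (hc.subset cl r m (Finset.erase_subset F c)).exists_min cl r m h9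
          exact (h8 F₁ hF₁ hmin₁).mono_right (hmin F₁ (Finset.mem_of_mem_erase hF₁))
      obtain ⟨g, hg1, hg2⟩ := hA F₀ (hc.1 F₀ hF₀).1 (hc.1 F₀ hF₀).2 p (by omega) _ hsup hb0
      refine ⟨g, fun σ hσ => ?_, hg2⟩
      obtain ⟨⟨h1, h2⟩, h3⟩ := hg1 σ hσ
      refine ⟨h1, by rw [h3, hcard], fun F hF hminF => ?_⟩
      exact h2.mono_right (hminF F₀ hF₀)
    let phi' : Finset (Finset V) → Ch V := fun c =>
      if h : Vc cl r m c ∧ c.card = p + 1 then (key c h.1 h.2).choose else phi c
    have hlow : ∀ c : Finset (Finset V), c.card ≤ p → phi' c = phi c := by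
      intro c hc
      have : ¬(Vc cl r m c ∧ c.card = p + 1) := fun h => by omega
      simp only [phi', dif_neg this]
    have hext : ∀ c : Finset (Finset V), c.card ≤ p + 1 →
        ext phi' (bd (del c)) = ext phi (bd (del c)) := by
      intro c hc
      refine ext_congr fun e he => hlow e ?_
      obtain ⟨F, hF, rfl⟩ := bd_del_ne he
      rw [Finset.card_erase_of_mem hF]; omega
    refine ⟨phi', ?_, fun c hc hcard => ?_⟩
    · rw [hlow ∅ (by simp), h0]
    · rw [hext c hcard]
      by_cases h1 : c.card = p + 1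
      · have h2 : phi' c = (key c hc h1).choose := by
          simp only [phi', dif_pos (And.intro hc h1)]
        rw [h2]
        exact (key c hc h1).choose_spec
      · have h3 : c.card ≤ p := by omega
        rw [hlow c h3]
        exact hphi c hc h3

/-- **Topological Hall theorem** for a closure operator with a strictly monotone rank of closed
sets. -/
theorem topHall (hle : ∀ σ : Finset V, σ ⊆ cl σ) (hmono : ∀ σ τ : Finset V, σ ⊆ τ → cl σ ⊆ cl τ)
    (hidem : ∀ σ : Finset V, cl (cl σ) = cl σ)
    (hr : ∀ F G : Finset V, cl F = F → cl G = G → F ⊂ G → r F < r G)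
    (C : Finset V → Prop) (hC0 : C ∅) (hCd : ∀ σ τ, τ ⊆ σ → C σ → C τ)
    (hA : ∀ F : Finset V, cl F = F → r F < m → Acy (m - r F) (fun σ => C σ ∧ Disjoint σ F)) :
    ∃ σ, C σ ∧ m ≤ r (cl σ) := by
  classical
  by_contra hcon
  push Not at hcon
  obtain ⟨phi, h0, hphi⟩ := exists_phi cl r m hr C hC0 hA (Fintype.card (Finset V))
  have hphi' : ∀ c, Vc cl r m c →
      (∀ σ, phi c σ ≠ 0 → C σ ∧ σ.card = c.card ∧ ∀ F ∈ c, (∀ G ∈ c, F ⊆ G) → Disjoint σ F) ∧
      bd (phi c) = ext phi (bd (del c)) := fun c hc => hphi c hc (Finset.card_le_univ c)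
  have hmin : ∀ F : Finset V, cl F = F → cl ∅ ⊆ F := by
    intro F hF
    rw [← hF]
    exact hmono _ _ (Finset.empty_subset F)
  refine hopf (Vc cl r m) (cl ∅) ⟨by simp, by simp⟩ (fun c hc v _ => hc.subset cl r m (Finset.erase_subset v c))
    ?_ (fun c => ext (psi cl) (phi c)) ?_ ?_ ?_ ?_
  · intro c hc
    refine ⟨fun F hF => ?_, fun F hF G hG => ?_⟩
    · rw [Finset.mem_insert] at hF
      rcases hF with rfl | hF
      · exact ⟨hidem ∅, hcon ∅ hC0⟩
      · exact hc.1 F hF
    · rw [Finset.mem_insert] at hF hG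
      rcases hF with rfl | hF
      · rcases hG with rfl | hG
        · exact Or.inl subset_rfl
        · exact Or.inl (hmin G (hc.1 G hG).1)
      · rcases hG with rfl | hG
        · exact Or.inr (hmin F (hc.1 F hF).1)
        · exact hc.2 F hF G hG
  · intro c hc e he
    rw [ext_apply, Finset.sum_apply] at he
    obtain ⟨σ, _, h1⟩ := Finset.exists_ne_zero_of_sum_ne_zero he
    rw [Pi.smul_apply, smul_eq_mul] at h1
    obtain ⟨_, h2, h3⟩ := psi_supp cl hmono σ e (right_ne_zero_of_mul h1)
    have h4 := ((hphi' c hc).1 σ (left_ne_zero_of_mul h1)).1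
    refine ⟨fun F hF => ?_, h3⟩
    obtain ⟨τ, hτ, _, rfl⟩ := h2 F hF
    exact ⟨hidem τ, hcon τ (hCd σ τ hτ h4)⟩
  · intro c hc
    have h1 : ∀ f : Ch V, bd (ext (psi cl) f) = ext (psi cl) (bd f) := by
      intro f
      conv_rhs => rw [sum_del f]
      rw [ext_apply, map_sum, map_sum, map_sum]
      refine Finset.sum_congr rfl fun σ _ => ?_
      rw [map_smul, bd_psi, map_smul, map_smul]
    have h2 : ∀ g : Ch (Finset V), ext (psi cl) (ext phi g) =
        ext (fun c => ext (psi cl) (phi c)) g := by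
      intro g
      rw [ext_apply phi g, map_sum, ext_apply (fun c => ext (psi cl) (phi c)) g]
      refine Finset.sum_congr rfl fun e _ => ?_
      rw [map_smul]
    rw [h1, (hphi' c hc).2, h2]
  · change ext (psi cl) (phi ∅) ∅ = 1
    rw [h0, ext_del, psi_empty, del_self]
  · intro c hc hne
    by_contra hd
    change ext (psi cl) (phi c) c ≠ 0 at hd
    rw [ext_apply, Finset.sum_apply] at hd
    obtain ⟨σ, _, h1⟩ := Finset.exists_ne_zero_of_sum_ne_zero hd
    rw [Pi.smul_apply, smul_eq_mul] at h1
    obtain ⟨_, h2, _⟩ := psi_supp cl hmono σ c (right_ne_zero_of_mul h1)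
    obtain ⟨F, hF, hminF⟩ := hc.exists_min cl r m (Finset.nonempty_iff_ne_empty.mpr hne)
    have h3 := ((hphi' c hc).1 σ (left_ne_zero_of_mul h1)).2.2 F hF hminF
    obtain ⟨τ, hτ, ⟨x, hx⟩, hFτ⟩ := h2 F hF
    exact Finset.disjoint_left.mp h3 (hτ hx) (hFτ ▸ hle τ hx)

end hall

end

end ABC
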