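import Pool.Agent.ABC.Spectral

/-!
# Slices of subsets of `α × κ` and the direct sum of copies of a matroid
-/

namespace ABC

open Finset

noncomputable section

variable {α κ : Type} [Fintype α] [DecidableEq α] [Fintype κ] [DecidableEq κ]

/-- the slice of colour `c` -/
def sl (T : Finset (α × κ)) (c : κ) : Finset α := univ.filter fun s => (s, c) ∈ T

theorem mem_sl {T : Finset (α × κ)} {c : κ} {s : α} : s ∈ sl T c ↔ (s, c) ∈ T := by simp [sl]

theorem sl_mono {T T' : Finset (α × κ)} (h : T ⊆ T') (c : κ) : sl T c ⊆ sl T' c := by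
  intro s hs
  rw [mem_sl] at hs ⊢
  exact h hs

theorem card_eq_sum_sl (T : Finset (α × κ)) : T.card = ∑ c, (sl T c).card := by
  rw [Finset.card_eq_sum_card_fiberwise (f := Prod.snd) (t := univ) (fun x _ => by simp)]
  refine Finset.sum_congr rfl fun c _ => ?_
  refine Finset.card_bij' (fun x _ => x.1) (fun s _ => (s, c)) ?_ ?_ ?_ ?_
  · rintro ⟨s, c'⟩ hx
    simp only [Finset.mem_filter] at hx
    obtain ⟨h1, rfl⟩ := hx
    exact mem_sl.mpr h1
  · intro s hs
    simp only [Finset.mem_filter]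
    exact ⟨mem_sl.mp hs, trivial⟩
  · rintro ⟨s, c'⟩ hx
    simp only [Finset.mem_filter] at hx
    obtain ⟨h1, rfl⟩ := hx
    rfl
  · intro s hs; rfl

theorem card_eq_sum_fst (T : Finset (α × κ)) (X : Finset α) (h : ∀ x ∈ T, x.1 ∈ X) :
    T.card = ∑ s ∈ X, (univ.filter fun c => (s, c) ∈ T).card := by
  rw [Finset.card_eq_sum_card_fiberwise (f := Prod.fst) (t := X) (fun x hx => h x hx)]
  refine Finset.sum_congr rfl fun s _ => ?_
  refine Finset.card_bij' (fun x _ => x.2) (fun c _ => (s, c)) ?_ ?_ ?_ ?_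
  · rintro ⟨s', c⟩ hx
    simp only [Finset.mem_filter] at hx
    obtain ⟨h1, rfl⟩ := hx
    simpa using h1
  · intro c hc
    simp only [Finset.mem_filter, Finset.mem_univ, true_and] at hc ⊢
    exact ⟨hc, trivial⟩
  · rintro ⟨s', c⟩ hx
    simp only [Finset.mem_filter] at hx
    obtain ⟨h1, rfl⟩ := hx
    rfl
  · intro s hs; rfl

theorem indep_card_le {M : Matroid α} {I J : Finset α} (hI : M.Indep (I : Set α))
    (hJ : M.Indep (J : Set α)) (h : (J : Set α) ⊆ M.closure (I : Set α)) : J.card ≤ I.card := by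
  have h1 := hJ.encard_le_eRk_of_subset h
  rw [Matroid.eRk_closure_eq, hI.eRk_eq_encard, Set.encard_coe_eq_coe_finsetCard,
    Set.encard_coe_eq_coe_finsetCard] at h1
  exact_mod_cast h1

theorem closure_eq_of_card {M : Matroid α} (hE : M.E = Set.univ) {I J : Finset α}
    (hI : M.Indep (I : Set α)) (hJ : M.Indep (J : Set α))
    (h : (J : Set α) ⊆ M.closure (I : Set α)) (hc : I.card ≤ J.card) :
    M.closure (J : Set α) = M.closure (I : Set α) := by
  apply subset_antisymm
  · exact M.closure_subset_closure_of_subset_closure h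
  · apply M.closure_subset_closure_of_subset_closure
    intro e he
    by_contra hcon
    have hins : M.Indep (insert e (J : Set α)) := by
      rw [hJ.insert_indep_iff]
      left
      exact ⟨by rw [hE]; trivial, hcon⟩
    have heJ : e ∉ J := fun h' => hcon (M.subset_closure (J : Set α) (by rw [hE]; exact Set.subset_univ _) h')
    rw [← Finset.coe_insert] at hins
    have h2 : ((insert e J : Finset α) : Set α) ⊆ M.closure (I : Set α) := by
      rw [Finset.coe_insert]
      exact Set.insert_subset (M.subset_closure (I : Set α) (by rw [hE]; exact Set.subset_univ _) he) h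
    have h3 := indep_card_le hI hins h2
    rw [Finset.card_insert_of_notMem heJ] at h3
    omega

/-- independence in the direct sum of copies of `M` indexed by the colours -/
def SI (M : Matroid α) (σ : Finset (α × κ)) : Prop := ∀ c, M.Indep (sl σ c : Set α)

open Classical in
/-- closure in the direct sum of copies of `M` -/
def Scl (M : Matroid α) (σ : Finset (α × κ)) : Finset (α × κ) :=
  univ.filter fun x => x.1 ∈ M.closure (sl σ x.2 : Set α)

theorem mem_Scl {M : Matroid α} {σ : Finset (α × κ)} {x : α × κ} :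
    x ∈ Scl M σ ↔ x.1 ∈ M.closure (sl σ x.2 : Set α) := by simp [Scl]

theorem sl_Scl {M : Matroid α} {σ : Finset (α × κ)} (c : κ) :
    ((sl (Scl M σ) c : Finset α) : Set α) = M.closure (sl σ c : Set α) := by
  ext s
  rw [Finset.mem_coe, mem_sl, mem_Scl]

theorem SI.subset {M : Matroid α} {σ τ : Finset (α × κ)} (h : SI M σ) (hτ : τ ⊆ σ) : SI M τ :=
  fun c => (h c).subset (by exact_mod_cast sl_mono hτ c)

theorem SI.subset_Scl {M : Matroid α} (hE : M.E = Set.univ) (σ : Finset (α × κ)) :
    σ ⊆ Scl M σ := by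
  intro x hx
  rw [mem_Scl]
  exact M.subset_closure _ (by rw [hE]; exact Set.subset_univ _) (mem_sl.mpr hx)

theorem SI.mem_Scl_of_insert {M : Matroid α} (hE : M.E = Set.univ) {σ : Finset (α × κ)} {v : α × κ}
    (h : SI M σ) (hn : ¬SI M (insert v σ)) : v ∈ Scl M σ := by
  obtain ⟨s, c⟩ := v
  rw [mem_Scl]
  by_contra hcon
  apply hn
  intro c'
  by_cases hcc : c' = c
  · subst hcc
    have e : ((sl (insert (s, c') σ) c' : Finset α) : Set α) = insert s (sl σ c' : Set α) := by
      ext x
      simp [mem_sl]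
    rw [e, (h c').insert_indep_iff]
    left
    exact ⟨by rw [hE]; trivial, hcon⟩
  · have e : sl (insert (s, c) σ) c' = sl σ c' := by
      ext x
      simp [mem_sl, hcc]
    rw [e]
    exact h c'

theorem SI.Scl_eq {M : Matroid α} (hE : M.E = Set.univ) {σ σ' : Finset (α × κ)} (h : SI M σ)
    (h' : SI M σ') (hc : σ.card = σ'.card) (hs : σ' ⊆ Scl M σ) : Scl M σ' = Scl M σ := by
  have h1 : ∀ c, ((sl σ' c : Finset α) : Set α) ⊆ M.closure (sl σ c : Set α) := by
    intro c
    rw [← sl_Scl]
    exact_mod_cast sl_mono hs c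
  have h2 : ∀ c, (sl σ' c).card ≤ (sl σ c).card := fun c => indep_card_le (h c) (h' c) (h1 c)
  have h3 : ∑ c, (sl σ' c).card = ∑ c, (sl σ c).card := by
    rw [← card_eq_sum_sl, ← card_eq_sum_sl, hc]
  have h4 : ∀ c, (sl σ' c).card = (sl σ c).card := by
    have := (Finset.sum_eq_sum_iff_of_le (fun c (_ : c ∈ (univ : Finset κ)) => h2 c)).mp h3
    exact fun c => this c (Finset.mem_univ c)
  ext x
  rw [mem_Scl, mem_Scl, closure_eq_of_card hE (h x.2) (h' x.2) (h1 x.2) (h4 x.2).ge]

theorem SI.card_Scl_le {M : Matroid α} {k : ℝ} (hk : 0 ≤ k)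
    (hM : ∀ X : Finset α, ∃ I : Finset α, I ⊆ X ∧ M.Indep (I : Set α) ∧ (X.card : ℝ) ≤ k * I.card)
    {σ : Finset (α × κ)} (h : SI M σ) : ((Scl M σ).card : ℝ) ≤ k * σ.card := by
  rw [card_eq_sum_sl, card_eq_sum_sl σ]
  push_cast
  rw [Finset.mul_sum]
  refine Finset.sum_le_sum fun c _ => ?_
  obtain ⟨I, h1, h2, h3⟩ := hM (sl (Scl M σ) c)
  refine h3.trans (mul_le_mul_of_nonneg_left ?_ hk)
  have h4 : (I : Set α) ⊆ M.closure (sl σ c : Set α) := by
    rw [← sl_Scl]
    exact_mod_cast h1
  exact_mod_cast indep_card_le (h c) h2 h4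

end

end ABC
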