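import Pool.Agent.ABC.ListMatch
import Pool.Agent.ABC.Slice

/-!
# Acyclicity of list matching complexes
-/

namespace ABC

open Finset

noncomputable section

variable {α κ J : Type} [Fintype α] [DecidableEq α] [Fintype κ] [DecidableEq κ] [DecidableEq J]

/-- the list of an element -/
def Ls (W : Finset (α × κ)) (s : α) : Finset κ := univ.filter fun c => (s, c) ∈ W

theorem mem_Ls {W : Finset (α × κ)} {s : α} {c : κ} : c ∈ Ls W s ↔ (s, c) ∈ W := by simp [Ls]

theorem card_row (π : α → J) (W : Finset (α × κ)) (j : J) (s : α) :
    ((Wp π W j).filter fun x => x.1 = s).card ≤ (Ls W s).card := by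
  refine Finset.card_le_card_of_injOn Prod.snd ?_ ?_
  · rintro ⟨s', c⟩ hx
    simp only [Finset.coe_filter, Set.mem_setOf_eq] at hx
    obtain ⟨h1, rfl⟩ := hx
    exact_mod_cast mem_Ls.mpr (mem_Wp.mp h1).1
  · rintro ⟨s', c⟩ hx ⟨s'', c'⟩ hy h
    simp only [Finset.coe_filter, Set.mem_setOf_eq] at hx hy
    obtain ⟨_, rfl⟩ := hx
    obtain ⟨_, rfl⟩ := hy
    simp only at h
    rw [h]

theorem card_col (π : α → J) (A : Finset α) (W : Finset (α × κ)) (hW : ∀ x ∈ W, x.1 ∈ A) (j : J)
    (s : α) (b : κ) (hs : s ∈ Ap π A j) :
    ((Wp π W j).filter fun x => x.1 ≠ s ∧ x.2 = b).card ≤ (Ap π A j).card - 1 := by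
  rw [← Finset.card_erase_of_mem hs]
  refine Finset.card_le_card_of_injOn Prod.fst ?_ ?_
  · rintro ⟨s', c⟩ hx
    simp only [Finset.coe_filter, Set.mem_setOf_eq] at hx
    obtain ⟨h1, h2, rfl⟩ := hx
    rw [mem_Wp] at h1
    simp only [Finset.coe_erase, Set.mem_diff, Finset.mem_coe, Set.mem_singleton_iff]
    exact ⟨mem_Ap.mpr ⟨hW _ h1.1, h1.2⟩, h2⟩
  · rintro ⟨s', c⟩ hx ⟨s'', c'⟩ hy h
    simp only [Finset.coe_filter, Set.mem_setOf_eq] at hx hy
    obtain ⟨_, _, rfl⟩ := hx
    obtain ⟨_, _, rfl⟩ := hy
    simp only at h
    rw [h]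

theorem card_Wp_eq (π : α → J) (A : Finset α) (W : Finset (α × κ)) (hW : ∀ x ∈ W, x.1 ∈ A) (j : J) :
    (Wp π W j).card = ∑ s ∈ Ap π A j, (Ls W s).card := by
  rw [card_eq_sum_fst (Wp π W j) (Ap π A j) (fun x hx => mem_Ap.mpr
    ⟨hW x (mem_Wp.mp hx).1, (mem_Wp.mp hx).2⟩)]
  refine Finset.sum_congr rfl fun s hs => ?_
  congr 1
  ext c
  simp only [Finset.mem_filter, Finset.mem_univ, true_and, mem_Ls, mem_Wp]
  exact ⟨fun h => h.1, fun h => ⟨h, (mem_Ap.mp hs).2⟩⟩

theorem Ls_subset (π : α → J) (W : Finset (α × κ)) {j : J} {s : α} (hs : π s = j) :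
    Ls W s ⊆ (Wp π W j).image Prod.snd := by
  intro c hc
  rw [mem_Ls] at hc
  exact Finset.mem_image.mpr ⟨(s, c), mem_Wp.mpr ⟨hc, hs⟩, rfl⟩

theorem sum_upd [Fintype J] (P Q : J → ℝ) (j : J) (h : ∀ i, i ≠ j → P i = Q i) (t : ℝ)
    (hj : P j - t ≤ Q j) : ∑ i, P i - t ≤ ∑ i, Q i := by
  rw [← Finset.add_sum_erase univ P (Finset.mem_univ j),
    ← Finset.add_sum_erase univ Q (Finset.mem_univ j)]
  have : ∑ i ∈ univ.erase j, P i = ∑ i ∈ univ.erase j, Q i :=
    Finset.sum_congr rfl fun i hi => h i (Finset.ne_of_mem_erase hi)
  rw [this]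
  linarith

theorem Ap_erase_self (π : α → J) (A : Finset α) {j : J} {a : α} :
    Ap π (A.erase a) j = (Ap π A j).erase a := by
  ext s; simp only [mem_Ap, Finset.mem_erase]; tauto

theorem Ap_erase_ne (π : α → J) (A : Finset α) {i j : J} {a : α} (ha : π a = j) (h : i ≠ j) :
    Ap π (A.erase a) i = Ap π A i := by
  ext s; simp only [mem_Ap, Finset.mem_erase]
  constructor
  · rintro ⟨⟨_, h1⟩, h2⟩; exact ⟨h1, h2⟩
  · rintro ⟨h1, h2⟩
    refine ⟨⟨?_, h1⟩, h2⟩
    rintro rfl
    exact h (h2.symm.trans ha)

/-- the main acyclicity theorem for list matching complexes -/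
theorem list_acy [Fintype J] (π : α → J) (N : ℕ) : ∀ (A : Finset α) (W : Finset (α × κ))
    (kap : J → ℕ) (n : ℕ), A.card = N → (∀ x ∈ W, x.1 ∈ A) →
    (∀ j, (Ap π A j).card ≤ kap j) →
    (∀ j, ((Wp π W j).image Prod.snd).card + 1 ≤ kap j + (Ap π A j).card) →
    (n : ℝ) ≤ ∑ j, pot (Wp π W j).card (Ap π A j).card (kap j) → Acy n (MC π W) := by
  classical
  induction N with
  | zero =>
    intro A W kap n hA hWA _ _ hn
    have hA0 : A = ∅ := Finset.card_eq_zero.mp hA
    have h1 : ∀ j, pot (Wp π W j).card (Ap π A j).card (kap j) = 0 := by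
      intro j
      have h2 : Wp π W j = ∅ := by
        apply Finset.eq_empty_of_forall_notMem
        intro x hx
        have := hWA x (mem_Wp.mp hx).1
        rw [hA0] at this
        exact absurd this (Finset.notMem_empty _)
      have h3 : Ap π A j = ∅ := by
        rw [hA0]; rfl
      rw [h2, h3]
      simp [pot]
    rw [Finset.sum_congr rfl fun j _ => h1 j, Finset.sum_const_zero] at hn
    have : n = 0 := by
      have : n ≤ 0 := by exact_mod_cast hn
      omega
    subst this
    intro i hi
    exact absurd hi (Nat.not_lt_zero i)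
  | succ N ih =>
    intro A W kap n hA hWA hk hU hn
    rcases Nat.eq_zero_or_pos n with h0 | hn1
    · subst h0
      intro i hi
      exact absurd hi (Nat.not_lt_zero i)
    have hcast : ((n - 1 : ℕ) : ℝ) = (n : ℝ) - 1 := by
      rw [Nat.cast_sub hn1, Nat.cast_one]
    have hn1' : (1 : ℝ) ≤ n := by exact_mod_cast hn1
    obtain ⟨j, hj⟩ : ∃ j, 0 < pot (Wp π W j).card (Ap π A j).card (kap j) := by
      by_contra hcon
      push Not at hcon
      have : ∑ j, pot (Wp π W j).card (Ap π A j).card (kap j) ≤ 0 :=
        Finset.sum_nonpos fun j _ => hcon j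
      linarith
    have hkj := hk j
    have hUj := hU j
    have hkpos : 0 < kap j := by
      by_contra h
      have h1 : kap j = 0 := by omega
      rw [h1] at hj
      simp [pot] at hj
    have hepos : 0 < (Wp π W j).card := by
      by_contra h
      have h1 : (Wp π W j).card = 0 := by omega
      rw [h1] at hj
      unfold pot at hj
      have h2 : (0 : ℝ) < ((0 : ℕ) : ℝ) - (Ap π A j).card * ((Ap π A j).card - 1) := by
        by_contra h3
        push Not at h3
        have := div_nonpos_of_nonpos_of_nonneg h3 (Nat.cast_nonneg (α := ℝ) (kap j))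
        linarith
      rcases Nat.eq_zero_or_pos (Ap π A j).card with h4 | h4
      · rw [h4] at h2; simp at h2
      · have h5 : (1 : ℝ) ≤ (Ap π A j).card := by exact_mod_cast h4
        push_cast at h2
        nlinarith
    obtain ⟨x₀, hx₀⟩ := Finset.card_pos.mp hepos
    have hAne : (Ap π A j).Nonempty :=
      ⟨x₀.1, mem_Ap.mpr ⟨hWA _ (mem_Wp.mp hx₀).1, (mem_Wp.mp hx₀).2⟩⟩
    have hm1 : 1 ≤ (Ap π A j).card := hAne.card_pos
    obtain ⟨a, haA, hamin⟩ := Finset.exists_min_image (Ap π A j) (fun s => (Ls W s).card) hAne
    have haj : π a = j := (mem_Ap.mp haA).2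
    have haA' : a ∈ A := (mem_Ap.mp haA).1
    have hesum := card_Wp_eq π A W hWA j
    have hLU : ∀ s, π s = j → (Ls W s).card ≤ ((Wp π W j).image Prod.snd).card := fun s hs =>
      Finset.card_le_card (Ls_subset π W hs)
    have hAcard : ∀ s ∈ A, (A.erase s).card = N := by
      intro s hs
      rw [Finset.card_erase_of_mem hs, hA]; rfl
    rcases (Ls W a).eq_empty_or_nonempty with hLa | ⟨b, hb⟩
    · -- an element with an empty list
      refine ih (A.erase a) W (Function.update kap j (kap j + 1)) n (hAcard a haA') ?_ ?_ ?_ ?_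
      · intro x hx
        refine Finset.mem_erase.mpr ⟨?_, hWA x hx⟩
        intro h
        have : x.2 ∈ Ls W a := mem_Ls.mpr (by rw [← h]; exact hx)
        rw [hLa] at this
        exact Finset.notMem_empty _ this
      · intro i
        by_cases hi : i = j
        · subst hi
          rw [Function.update_self, Ap_erase_self, Finset.card_erase_of_mem haA]
          omega
        · rw [Function.update_of_ne hi, Ap_erase_ne π A haj hi]
          exact hk i
      · intro i
        by_cases hi : i = j
        · subst hi
          rw [Function.update_self, Ap_erase_self, Finset.card_erase_of_mem haA]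
          omega
        · rw [Function.update_of_ne hi, Ap_erase_ne π A haj hi]
          exact hU i
      · refine hn.trans ?_
        have h1 := sum_upd (fun i => pot (Wp π W i).card (Ap π A i).card (kap i))
          (fun i => pot (Wp π W i).card (Ap π (A.erase a) i).card
            (Function.update kap j (kap j + 1) i)) j ?_ 0 ?_
        · rw [sub_zero] at h1; exact h1
        · intro i hi
          rw [Function.update_of_ne hi, Ap_erase_ne π A haj hi]
        · rw [Function.update_self, Ap_erase_self, Finset.card_erase_of_mem haA, sub_zero]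
          refine pot_empty hm1 hkj ?_
          rw [hesum, ← Finset.add_sum_erase _ _ haA, hLa, Finset.card_empty, zero_add]
          have h2 : ∀ s ∈ (Ap π A j).erase a, (Ls W s).card ≤ kap j + (Ap π A j).card - 1 := by
            intro s hs
            have := hLU s (mem_Ap.mp (Finset.mem_of_mem_erase hs)).2
            omega
          have h3 := Finset.sum_le_card_nsmul _ _ _ h2
          rw [Finset.card_erase_of_mem haA, smul_eq_mul] at h3
          exact h3
    · rw [mem_Ls] at hb
      -- the general case
      let W0 := W.filter fun x => ¬conf π x (a, b)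
      let B2 := W.filter fun x => x.1 = a ∧ x.2 ≠ b
      let B1 := W.filter fun x => x.1 ≠ a ∧ π x.1 = j ∧ x.2 = b
      have hW0 : ∀ x, x ∈ W0 ↔ x ∈ W ∧ ¬conf π x (a, b) := by intro x; simp [W0]
      have hB2 : ∀ x, x ∈ B2 ↔ x ∈ W ∧ x.1 = a ∧ x.2 ≠ b := by intro x; simp [B2]
      have hB1 : ∀ x, x ∈ B1 ↔ x ∈ W ∧ x.1 ≠ a ∧ π x.1 = j ∧ x.2 = b := by intro x; simp [B1]
      have hU2 : b ∈ (Wp π W j).image Prod.snd :=
        Finset.mem_image.mpr ⟨(a, b), mem_Wp.mpr ⟨hb, haj⟩, rfl⟩
      have hmp : (Ap π A j).card * (Ls W a).card ≤ (Wp π W j).card := by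
        rw [hesum, ← smul_eq_mul]
        exact Finset.card_nsmul_le_sum _ _ _ fun s hs => hamin s hs
      have hxe : (Wp π W j).card ≤ (Ap π A j).card * (kap j + (Ap π A j).card - 1) := by
        rw [hesum, ← smul_eq_mul]
        refine Finset.sum_le_card_nsmul _ _ _ fun s hs => ?_
        have := hLU s (mem_Ap.mp hs).2
        omega
      -- link of (a, c')
      have hlink1 : ∀ c', (a, c') ∈ W → c' ≠ b → Acy (n - 1)
          (MC π (W.filter fun x => x.1 ≠ a ∧ (π x.1 = j → x.2 ≠ b ∧ x.2 ≠ c'))) := by
        intro c' hc' hcb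
        set W' := W.filter fun x => x.1 ≠ a ∧ (π x.1 = j → x.2 ≠ b ∧ x.2 ≠ c') with hW'
        have hmW' : ∀ x, x ∈ W' ↔ x ∈ W ∧ x.1 ≠ a ∧ (π x.1 = j → x.2 ≠ b ∧ x.2 ≠ c') := by
          intro x; rw [hW', Finset.mem_filter]
        have hWne : ∀ i, i ≠ j → Wp π W' i = Wp π W i := by
          intro i hi
          ext x
          rw [mem_Wp, mem_Wp, hmW']
          constructor
          · rintro ⟨⟨h1, _⟩, h2⟩; exact ⟨h1, h2⟩
          · rintro ⟨h1, h2⟩
            refine ⟨⟨h1, fun h => hi (by rw [← h2, h, haj]), fun h => absurd (h2.symm.trans h) hi⟩, h2⟩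
        have hU3 : c' ∈ (Wp π W j).image Prod.snd :=
          Finset.mem_image.mpr ⟨(a, c'), mem_Wp.mpr ⟨hc', haj⟩, rfl⟩
        have hUcard : ((Wp π W' j).image Prod.snd).card + 2 ≤ ((Wp π W j).image Prod.snd).card := by
          have h1 : (Wp π W' j).image Prod.snd ⊆ (((Wp π W j).image Prod.snd).erase b).erase c' := by
            intro c hc
            obtain ⟨x, hx, rfl⟩ := Finset.mem_image.mp hc
            obtain ⟨h2, h3⟩ := mem_Wp.mp hx
            obtain ⟨h4, _, h5⟩ := (hmW' x).mp h2
            exact Finset.mem_erase.mpr ⟨(h5 h3).2, Finset.mem_erase.mpr ⟨(h5 h3).1,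
              Finset.mem_image.mpr ⟨x, mem_Wp.mpr ⟨h4, h3⟩, rfl⟩⟩⟩
          have h2 := Finset.card_le_card h1
          rw [Finset.card_erase_of_mem (Finset.mem_erase.mpr ⟨hcb, hU3⟩),
            Finset.card_erase_of_mem hU2] at h2
          have h3 : 2 ≤ ((Wp π W j).image Prod.snd).card := by
            have : ({b, c'} : Finset κ) ⊆ (Wp π W j).image Prod.snd := by
              intro c hc
              rw [Finset.mem_insert, Finset.mem_singleton] at hc
              rcases hc with rfl | rfl
              · exact hU2
              · exact hU3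
            have h4 := Finset.card_le_card this
            rwa [Finset.card_pair (Ne.symm hcb)] at h4
          omega
        have hk2 : 2 ≤ kap j := by omega
        refine ih (A.erase a) W' (Function.update kap j (kap j - 1)) (n - 1) (hAcard a haA') ?_ ?_ ?_ ?_
        · intro x hx
          obtain ⟨h1, h2, _⟩ := (hmW' x).mp hx
          exact Finset.mem_erase.mpr ⟨h2, hWA x h1⟩
        · intro i
          by_cases hi : i = j
          · subst hi
            rw [Function.update_self, Ap_erase_self, Finset.card_erase_of_mem haA]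
            omega
          · rw [Function.update_of_ne hi, Ap_erase_ne π A haj hi]
            exact hk i
        · intro i
          by_cases hi : i = j
          · subst hi
            rw [Function.update_self, Ap_erase_self, Finset.card_erase_of_mem haA]
            omega
          · rw [Function.update_of_ne hi, Ap_erase_ne π A haj hi, hWne i hi]
            exact hU i
        · rw [hcast]
          refine (sub_le_sub_right hn 1).trans (sum_upd
            (fun i => pot (Wp π W i).card (Ap π A i).card (kap i))
            (fun i => pot (Wp π W' i).card (Ap π (A.erase a) i).card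
            (Function.update kap j (kap j - 1) i)) j ?_ 1 ?_)
          · intro i hi
            rw [Function.update_of_ne hi, Ap_erase_ne π A haj hi, hWne i hi]
          · rw [Function.update_self, Ap_erase_self, Finset.card_erase_of_mem haA]
            refine pot_self hm1 hkj hk2 (p := (Ls W a).card) ?_ hmp hxe
            have h1 : Wp π W j ⊆ Wp π W' j ∪ ((Wp π W j).filter fun x => x.1 = a) ∪
                ((Wp π W j).filter fun x => x.1 ≠ a ∧ x.2 = b) ∪
                ((Wp π W j).filter fun x => x.1 ≠ a ∧ x.2 = c') := by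
              intro x hx
              simp only [Finset.mem_union, Finset.mem_filter]
              by_cases h2 : x.1 = a
              · exact Or.inl (Or.inl (Or.inr ⟨hx, h2⟩))
              by_cases h3 : x.2 = b
              · exact Or.inl (Or.inr ⟨hx, h2, h3⟩)
              by_cases h4 : x.2 = c'
              · exact Or.inr ⟨hx, h2, h4⟩
              · exact Or.inl (Or.inl (Or.inl (mem_Wp.mpr ⟨(hmW' x).mpr
                  ⟨(mem_Wp.mp hx).1, h2, fun _ => ⟨h3, h4⟩⟩, (mem_Wp.mp hx).2⟩)))
            have h2 := Finset.card_le_card h1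
            have h3 := Finset.card_union_le (Wp π W' j ∪ ((Wp π W j).filter fun x => x.1 = a) ∪
                ((Wp π W j).filter fun x => x.1 ≠ a ∧ x.2 = b))
                ((Wp π W j).filter fun x => x.1 ≠ a ∧ x.2 = c')
            have h4 := Finset.card_union_le (Wp π W' j ∪ ((Wp π W j).filter fun x => x.1 = a))
                ((Wp π W j).filter fun x => x.1 ≠ a ∧ x.2 = b)
            have h5 := Finset.card_union_le (Wp π W' j) ((Wp π W j).filter fun x => x.1 = a)
            have h6 := card_row π W j a
            have h7 := card_col π A W hWA j a b haA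
            have h8 := card_col π A W hWA j a c' haA
            omega
      -- link of (s, b)
      have hlink2 : ∀ s, (s, b) ∈ W → π s = j → Acy (n - 1)
          (MC π (W.filter fun x => x.1 ≠ s ∧ (π x.1 = j → x.2 ≠ b))) := by
        intro s hs hsj
        have hsA : s ∈ Ap π A j := mem_Ap.mpr ⟨hWA _ hs, hsj⟩
        set W' := W.filter fun x => x.1 ≠ s ∧ (π x.1 = j → x.2 ≠ b) with hW'
        have hmW' : ∀ x, x ∈ W' ↔ x ∈ W ∧ x.1 ≠ s ∧ (π x.1 = j → x.2 ≠ b) := by
          intro x; rw [hW', Finset.mem_filter]
        have hWne : ∀ i, i ≠ j → Wp π W' i = Wp π W i := by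
          intro i hi
          ext x
          rw [mem_Wp, mem_Wp, hmW']
          constructor
          · rintro ⟨⟨h1, _⟩, h2⟩; exact ⟨h1, h2⟩
          · rintro ⟨h1, h2⟩
            refine ⟨⟨h1, fun h => hi (by rw [← h2, h, hsj]), fun h => absurd (h2.symm.trans h) hi⟩, h2⟩
        have hUcard : ((Wp π W' j).image Prod.snd).card + 1 ≤ ((Wp π W j).image Prod.snd).card := by
          have h1 : (Wp π W' j).image Prod.snd ⊆ ((Wp π W j).image Prod.snd).erase b := by
            intro c hc
            obtain ⟨x, hx, rfl⟩ := Finset.mem_image.mp hc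
            obtain ⟨h2, h3⟩ := mem_Wp.mp hx
            obtain ⟨h4, _, h5⟩ := (hmW' x).mp h2
            exact Finset.mem_erase.mpr ⟨h5 h3,
              Finset.mem_image.mpr ⟨x, mem_Wp.mpr ⟨h4, h3⟩, rfl⟩⟩
          have h2 := Finset.card_le_card h1
          rw [Finset.card_erase_of_mem hU2] at h2
          have h3 : 0 < ((Wp π W j).image Prod.snd).card := Finset.card_pos.mpr ⟨b, hU2⟩
          omega
        refine ih (A.erase s) W' kap (n - 1) (hAcard s (mem_Ap.mp hsA).1) ?_ ?_ ?_ ?_
        · intro x hx
          obtain ⟨h1, h2, _⟩ := (hmW' x).mp hx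
          exact Finset.mem_erase.mpr ⟨h2, hWA x h1⟩
        · intro i
          by_cases hi : i = j
          · subst hi
            rw [Ap_erase_self, Finset.card_erase_of_mem hsA]
            omega
          · rw [Ap_erase_ne π A hsj hi]
            exact hk i
        · intro i
          by_cases hi : i = j
          · subst hi
            rw [Ap_erase_self, Finset.card_erase_of_mem hsA]
            omega
          · rw [Ap_erase_ne π A hsj hi, hWne i hi]
            exact hU i
        · rw [hcast]
          refine (sub_le_sub_right hn 1).trans (sum_upd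
            (fun i => pot (Wp π W i).card (Ap π A i).card (kap i))
            (fun i => pot (Wp π W' i).card (Ap π (A.erase s) i).card (kap i)) j ?_ 1 ?_)
          · intro i hi
            rw [Ap_erase_ne π A hsj hi, hWne i hi]
          · rw [Ap_erase_self, Finset.card_erase_of_mem hsA]
            refine pot_other hm1 hkj ?_
            have h1 : Wp π W j ⊆ Wp π W' j ∪ ((Wp π W j).filter fun x => x.1 = s) ∪
                ((Wp π W j).filter fun x => x.1 ≠ s ∧ x.2 = b) := by
              intro x hx
              simp only [Finset.mem_union, Finset.mem_filter]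
              by_cases h2 : x.1 = s
              · exact Or.inl (Or.inr ⟨hx, h2⟩)
              by_cases h3 : x.2 = b
              · exact Or.inr ⟨hx, h2, h3⟩
              · exact Or.inl (Or.inl (mem_Wp.mpr ⟨(hmW' x).mpr
                  ⟨(mem_Wp.mp hx).1, h2, fun _ => h3⟩, (mem_Wp.mp hx).2⟩))
            have h2 := Finset.card_le_card h1
            have h4 := Finset.card_union_le (Wp π W' j ∪ ((Wp π W j).filter fun x => x.1 = s))
                ((Wp π W j).filter fun x => x.1 ≠ s ∧ x.2 = b)
            have h5 := Finset.card_union_le (Wp π W' j) ((Wp π W j).filter fun x => x.1 = s)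
            have h6 := card_row π W j s
            have h7 := card_col π A W hWA j s b hsA
            have h8 := hLU s hsj
            omega
      have claim1 : ∀ B : Finset (α × κ), B ⊆ B2 → Acy n (MC π (W0 ∪ B)) := by
        intro B
        induction B using Finset.induction_on with
        | empty =>
          intro _
          rw [Finset.union_empty]
          exact MC_cone (v := (a, b)) ((hW0 _).mpr ⟨hb, not_conf_self π _⟩)
            (fun x hx => ((hW0 x).mp hx).2) n
        | insert v B' hv ihB =>
          intro hsub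
          have hvB2 := (hB2 v).mp (hsub (Finset.mem_insert_self v B'))
          obtain ⟨hvW, hva, hvb⟩ := hvB2
          have hvW0 : v ∉ W0 := fun h => ((hW0 v).mp h).2 (Or.inl ⟨hva, hvb⟩)
          have hvn : v ∉ W0 ∪ B' := by
            rw [Finset.mem_union]; rintro (h | h); exacts [hvW0 h, hv h]
          have hBs : B' ⊆ B2 := (Finset.subset_insert v B').trans hsub
          rw [Finset.union_insert]
          refine acy_step v n _ MC.down ?_ ?_
          · rw [MC_erase hvn]
            exact ihB hBs
          · have hv2 : v = (a, v.2) := Prod.ext hva rfl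
            rw [MC_link (W' := W.filter fun x => x.1 ≠ a ∧ (π x.1 = j → x.2 ≠ b ∧ x.2 ≠ v.2)) hvn ?_]
            · exact hlink1 v.2 (hv2 ▸ hvW) hvb
            · intro x
              rw [Finset.mem_filter, Finset.mem_union]
              constructor
              · rintro ⟨h1, h2, h3⟩
                refine ⟨Or.inl ((hW0 x).mpr ⟨h1, ?_⟩), ?_⟩
                · rintro (⟨h4, _⟩ | ⟨_, h5, h6⟩)
                  · exact h2 h4
                  · exact (h3 (h5.trans haj)).1 h6
                · rintro (⟨h4, _⟩ | ⟨_, h5, h6⟩)
                  · exact h2 (h4.trans hva)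
                  · exact (h3 (h5.trans (by rw [hva, haj]))).2 h6
              · rintro ⟨h1, h2⟩
                have h3 : x.1 ≠ a := by
                  intro h4
                  by_cases h5 : x.2 = v.2
                  · have : x = v := Prod.ext (h4.trans hva.symm) h5
                    rw [this] at h1
                    exact hvn (Finset.mem_union.mpr h1)
                  · exact h2 (Or.inl ⟨h4.trans hva.symm, h5⟩)
                have h4 : x ∈ W0 := by
                  rcases h1 with h1 | h1
                  · exact h1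
                  · exact absurd ((hB2 x).mp (hBs h1)).2.1 h3
                obtain ⟨h5, h6⟩ := (hW0 x).mp h4
                refine ⟨h5, h3, fun h7 => ⟨fun h8 => h6 (Or.inr ⟨h3, h7.trans haj.symm, h8⟩),
                  fun h8 => h2 (Or.inr ⟨by rw [hva]; exact h3, by rw [hva, h7, haj], h8⟩)⟩⟩
      have claim2 : ∀ B : Finset (α × κ), B ⊆ B1 → Acy n (MC π (W0 ∪ B2 ∪ B)) := by
        intro B
        induction B using Finset.induction_on with
        | empty =>
          intro _
          rw [Finset.union_empty]
          exact claim1 B2 subset_rfl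
        | insert v B' hv ihB =>
          intro hsub
          obtain ⟨hvW, hva, hvj, hvb⟩ := (hB1 v).mp (hsub (Finset.mem_insert_self v B'))
          have hvW0 : v ∉ W0 := fun h => ((hW0 v).mp h).2 (Or.inr ⟨hva, hvj.trans haj.symm, hvb⟩)
          have hvB2 : v ∉ B2 := fun h => hva ((hB2 v).mp h).2.1
          have hvn : v ∉ W0 ∪ B2 ∪ B' := by
            rw [Finset.mem_union, Finset.mem_union]; rintro ((h | h) | h)
            exacts [hvW0 h, hvB2 h, hv h]
          have hBs : B' ⊆ B1 := (Finset.subset_insert v B').trans hsub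
          rw [Finset.union_insert]
          refine acy_step v n _ MC.down ?_ ?_
          · rw [MC_erase hvn]
            exact ihB hBs
          · have hv2 : v = (v.1, b) := Prod.ext rfl hvb
            rw [MC_link (W' := W.filter fun x => x.1 ≠ v.1 ∧ (π x.1 = j → x.2 ≠ b)) hvn ?_]
            · exact hlink2 v.1 (hv2 ▸ hvW) hvj
            · intro x
              rw [Finset.mem_filter, Finset.mem_union, Finset.mem_union]
              constructor
              · rintro ⟨h1, h2, h3⟩
                refine ⟨Or.inl ?_, ?_⟩
                · by_cases h4 : conf π x (a, b)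
                  · rcases h4 with ⟨h5, h6⟩ | ⟨_, h6, h7⟩
                    · exact Or.inr ((hB2 x).mpr ⟨h1, h5, h6⟩)
                    · exact absurd h7 (h3 (h6.trans haj))
                  · exact Or.inl ((hW0 x).mpr ⟨h1, h4⟩)
                · rintro (⟨h4, _⟩ | ⟨_, h5, h6⟩)
                  · exact h2 h4
                  · exact h3 (h5.trans hvj) (h6.trans hvb)
              · rintro ⟨h1, h2⟩
                have h1W : x ∈ W := by
                  rcases h1 with (h1 | h1) | h1
                  · exact ((hW0 x).mp h1).1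
                  · exact ((hB2 x).mp h1).1
                  · exact ((hB1 x).mp (hBs h1)).1
                have h3 : x.1 ≠ v.1 := by
                  intro h4
                  by_cases h5 : x.2 = v.2
                  · have : x = v := Prod.ext h4 h5
                    rw [this] at h1
                    exact hvn (Finset.mem_union.mpr (h1.imp_left Finset.mem_union.mpr))
                  · exact h2 (Or.inl ⟨h4, h5⟩)
                exact ⟨h1W, h3, fun h7 h8 => h2 (Or.inr ⟨h3, h7.trans hvj.symm, h8.trans hvb.symm⟩)⟩
      have hfin : W0 ∪ B2 ∪ B1 = W := by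
        ext x
        rw [Finset.mem_union, Finset.mem_union, hW0, hB2, hB1]
        constructor
        · rintro ((h | h) | h)
          exacts [h.1, h.1, h.1]
        · intro h
          by_cases h4 : conf π x (a, b)
          · rcases h4 with ⟨h5, h6⟩ | ⟨h5, h6, h7⟩
            · exact Or.inl (Or.inr ⟨h, h5, h6⟩)
            · exact Or.inr ⟨h, h5, h6.trans haj, h7⟩
          · exact Or.inl (Or.inl ⟨h, h4⟩)
      have := claim2 B1 subset_rfl
      rwa [hfin] at this

end

end ABC
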