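import Pool.Agent.ABC.Step

/-!
# List matching complexes

`W` is a set of pairs (element, colour); the faces of `MC π W` are the partial colourings contained
in `W` in which every element is used at most once and elements of the same part (fibre of `π`) get
different colours.
-/

namespace ABC

open Finset

noncomputable section

variable {α κ J : Type} [Fintype α] [DecidableEq α] [Fintype κ] [DecidableEq κ] [DecidableEq J]

/-- two pairs are in conflict -/
def conf (π : α → J) (x y : α × κ) : Prop :=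
  (x.1 = y.1 ∧ x.2 ≠ y.2) ∨ (x.1 ≠ y.1 ∧ π x.1 = π y.1 ∧ x.2 = y.2)

theorem conf_symm {π : α → J} {x y : α × κ} (h : conf π x y) : conf π y x := by
  rcases h with ⟨h1, h2⟩ | ⟨h1, h2, h3⟩
  · exact Or.inl ⟨h1.symm, Ne.symm h2⟩
  · exact Or.inr ⟨Ne.symm h1, h2.symm, h3.symm⟩

theorem not_conf_self (π : α → J) (x : α × κ) : ¬conf π x x := by
  rintro (⟨_, h⟩ | ⟨h, _⟩)
  · exact h rfl
  · exact h rfl

/-- partial colourings -/
def MC (π : α → J) (W : Finset (α × κ)) (σ : Finset (α × κ)) : Prop :=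
  σ ⊆ W ∧ ∀ x ∈ σ, ∀ y ∈ σ, ¬conf π x y

theorem MC.down {π : α → J} {W : Finset (α × κ)} (σ τ : Finset (α × κ)) (h : τ ⊆ σ)
    (hσ : MC π W σ) : MC π W τ :=
  ⟨h.trans hσ.1, fun x hx y hy => hσ.2 x (h hx) y (h hy)⟩

theorem MC_erase {π : α → J} {W : Finset (α × κ)} {v : α × κ} (hv : v ∉ W) :
    (fun σ => MC π (insert v W) σ ∧ v ∉ σ) = MC π W := by
  funext σ
  apply propext
  constructor
  · rintro ⟨h1, h2⟩
    refine ⟨fun x hx => ?_, h1.2⟩
    rcases Finset.mem_insert.mp (h1.1 hx) with h | h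
    · exact absurd (h ▸ hx) h2
    · exact h
  · intro h
    exact ⟨⟨h.1.trans (Finset.subset_insert v W), h.2⟩, fun h' => hv (h.1 h')⟩

theorem MC_link {π : α → J} {W W' : Finset (α × κ)} {v : α × κ} (hv : v ∉ W)
    (hW' : ∀ x, x ∈ W' ↔ x ∈ W ∧ ¬conf π x v) :
    (fun σ => v ∉ σ ∧ MC π (insert v W) (insert v σ)) = MC π W' := by
  funext σ
  apply propext
  constructor
  · rintro ⟨h1, h2, h3⟩
    refine ⟨fun x hx => (hW' x).mpr ⟨?_, ?_⟩, fun x hx y hy => h3 x (Finset.mem_insert_of_mem hx) y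
      (Finset.mem_insert_of_mem hy)⟩
    · rcases Finset.mem_insert.mp (h2 (Finset.mem_insert_of_mem hx)) with h | h
      · exact absurd (h ▸ hx) h1
      · exact h
    · exact h3 x (Finset.mem_insert_of_mem hx) v (Finset.mem_insert_self v σ)
  · rintro ⟨h1, h2⟩
    refine ⟨fun h => hv ((hW' v).mp (h1 h)).1, ?_, ?_⟩
    · exact Finset.insert_subset_insert v fun x hx => ((hW' x).mp (h1 hx)).1
    · intro x hx y hy
      rcases Finset.mem_insert.mp hx with rfl | hx1
      · rcases Finset.mem_insert.mp hy with rfl | hy1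
        · exact not_conf_self π _
        · exact fun h => ((hW' y).mp (h1 hy1)).2 (conf_symm h)
      · rcases Finset.mem_insert.mp hy with rfl | hy1
        · exact ((hW' x).mp (h1 hx1)).2
        · exact h2 x hx1 y hy1

theorem MC_cone {π : α → J} {W : Finset (α × κ)} {v : α × κ} (hv : v ∈ W)
    (h : ∀ x ∈ W, ¬conf π x v) (n : ℕ) : Acy n (MC π W) := by
  refine acy_cone v n _ fun σ hσ => ⟨Finset.insert_subset hv hσ.1, ?_⟩
  intro x hx y hy
  rcases Finset.mem_insert.mp hx with rfl | hx1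
  · rcases Finset.mem_insert.mp hy with rfl | hy1
    · exact not_conf_self π _
    · exact fun h' => h y (hσ.1 hy1) (conf_symm h')
  · rcases Finset.mem_insert.mp hy with rfl | hy1
    · exact h x (hσ.1 hx1)
    · exact hσ.2 x hx1 y hy1

/-- the part of `W` over the part `j` -/
def Wp (π : α → J) (W : Finset (α × κ)) (j : J) : Finset (α × κ) := W.filter fun x => π x.1 = j

/-- the elements of `A` in the part `j` -/
def Ap (π : α → J) (A : Finset α) (j : J) : Finset α := A.filter fun s => π s = j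

theorem mem_Wp {π : α → J} {W : Finset (α × κ)} {j : J} {x : α × κ} :
    x ∈ Wp π W j ↔ x ∈ W ∧ π x.1 = j := by simp [Wp]

theorem mem_Ap {π : α → J} {A : Finset α} {j : J} {s : α} : s ∈ Ap π A j ↔ s ∈ A ∧ π s = j := by
  simp [Ap]

/-- the potential of a part: `(e - m (m-1)) / κ` -/
def pot (e m k : ℕ) : ℝ := ((e : ℝ) - m * (m - 1)) / k

/-- deleting an element with empty list -/
theorem pot_empty {e m k : ℕ} (hm : 1 ≤ m) (hk : m ≤ k) (he : e ≤ (m - 1) * (k + m - 1)) :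
    pot e m k ≤ pot e (m - 1) (k + 1) := by
  obtain ⟨m', rfl⟩ : ∃ m', m = m' + 1 := ⟨m - 1, by omega⟩
  unfold pot
  have hk0 : (0 : ℝ) < k := by exact_mod_cast (by omega : 0 < k)
  rw [div_le_div_iff₀ hk0 (by positivity)]
  have he' : e ≤ m' * (k + m') := by simpa using he
  have he2 : (e : ℝ) ≤ m' * (k + m') := by exact_mod_cast he'
  have hk1 : (m' : ℝ) + 1 ≤ k := by exact_mod_cast hk
  simp only [Nat.add_sub_cancel]
  push_cast
  nlinarith [mul_nonneg (Nat.cast_nonneg (α := ℝ) m') hk0.le]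

/-- exploding an element of a part -/
theorem pot_other {e e' m k : ℕ} (hm : 1 ≤ m) (hk : m ≤ k) (he : e ≤ e' + (k + m - 1) + (m - 1)) :
    pot e m k - 1 ≤ pot e' (m - 1) k := by
  obtain ⟨m', rfl⟩ : ∃ m', m = m' + 1 := ⟨m - 1, by omega⟩
  unfold pot
  have hk0 : (0 : ℝ) < k := by exact_mod_cast (by omega : 0 < k)
  rw [sub_le_iff_le_add, ← sub_nonneg]
  have he' : e ≤ e' + (k + m') + m' := by simpa using he
  have he2 : (e : ℝ) ≤ e' + (k + m') + m' := by exact_mod_cast he'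
  have e1 : ((e' : ℝ) - ((m' + 1 - 1 : ℕ) : ℝ) * (((m' + 1 - 1 : ℕ) : ℝ) - 1)) / k + 1 -
      ((e : ℝ) - ((m' + 1 : ℕ) : ℝ) * (((m' + 1 : ℕ) : ℝ) - 1)) / k =
      ((e' : ℝ) + (k + m') + m' - e) / k := by
    simp only [Nat.add_sub_cancel]
    push_cast
    field_simp
    ring
  rw [e1]
  exact div_nonneg (by linarith) hk0.le

/-- exploding the distinguished element -/
theorem pot_self {e e' m k p : ℕ} (hm : 1 ≤ m) (hk : m ≤ k) (hk2 : 2 ≤ k)
    (he : e ≤ e' + p + 2 * (m - 1)) (hp : m * p ≤ e) (hx : e ≤ m * (k + m - 1)) :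
    pot e m k - 1 ≤ pot e' (m - 1) (k - 1) := by
  obtain ⟨m', rfl⟩ : ∃ m', m = m' + 1 := ⟨m - 1, by omega⟩
  obtain ⟨k', rfl⟩ : ∃ k', k = k' + 1 := ⟨k - 1, by omega⟩
  unfold pot
  have hk0 : (0 : ℝ) < k' := by exact_mod_cast (by omega : 0 < k')
  have he' : e ≤ e' + p + 2 * m' := by simpa using he
  have he2 : (e : ℝ) ≤ e' + p + 2 * m' := by exact_mod_cast he'
  have hp2 : ((m' : ℝ) + 1) * p ≤ e := by exact_mod_cast hp
  have hx' : e ≤ (m' + 1) * (k' + 1 + m') := by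
    have : k' + 1 + (m' + 1) - 1 = k' + 1 + m' := by omega
    rwa [this] at hx
  have hx2 : (e : ℝ) ≤ (m' + 1) * (k' + 1 + m') := by exact_mod_cast hx'
  have hkm : (m' : ℝ) ≤ k' := by exact_mod_cast (by omega : m' ≤ k')
  have hm0 : (0 : ℝ) ≤ m' := Nat.cast_nonneg _
  rw [sub_le_iff_le_add, ← sub_nonneg]
  have e1 : ((e' : ℝ) - ((m' + 1 - 1 : ℕ) : ℝ) * (((m' + 1 - 1 : ℕ) : ℝ) - 1)) /
      ((k' + 1 - 1 : ℕ) : ℝ) + 1 -
      ((e : ℝ) - ((m' + 1 : ℕ) : ℝ) * (((m' + 1 : ℕ) : ℝ) - 1)) / ((k' + 1 : ℕ) : ℝ) =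
      ((k' + 1) * ((e' : ℝ) - m' * (m' - 1)) + k' * (k' + 1) - k' * (e - (m' + 1) * m')) /
        (k' * (k' + 1)) := by
    simp only [Nat.add_sub_cancel]
    push_cast
    field_simp
    ring
  rw [e1]
  refine div_nonneg ?_ (by positivity)
  -- numerator
  have h1 : (k' + 1 : ℝ) * (e - p - 2 * m') ≤ (k' + 1) * e' :=
    mul_le_mul_of_nonneg_left (by linarith) (by positivity)
  have h2 : ((m' : ℝ) + 1) * ((k' + 1) * p) ≤ (k' + 1) * e := by nlinarith
  -- multiply the target by (m'+1)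
  have h3 : 0 ≤ ((m' : ℝ) + 1) * ((k' + 1) * ((e' : ℝ) - m' * (m' - 1)) + k' * (k' + 1) -
      k' * (e - (m' + 1) * m')) := by
    have h4 : 0 ≤ ((k' : ℝ) - m') * ((m' + 1) * (k' + 1 + m') - e) :=
      mul_nonneg (by linarith) (by linarith)
    have h5 : ((m' : ℝ) + 1) * ((k' + 1) * (e - p - 2 * m')) ≤ ((m' : ℝ) + 1) * ((k' + 1) * e') :=
      mul_le_mul_of_nonneg_left h1 (by positivity)
    nlinarith
  exact nonneg_of_mul_nonneg_right h3 (by positivity)

end

end ABC
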