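import Pool.Agent.ABC.Rank
import Pool.Agent.ABC.ListAcy

/-!
# Covering by sets independent in a matroid and in a partition matroid: `k + l - 1` colours
-/

namespace ABC

open Finset

noncomputable section

variable {α J : Type} [Fintype α] [DecidableEq α] [DecidableEq J]

/-- the number of chains needed: potential of a full part minus the missing pairs -/
theorem pot_full {K m k f e : ℕ} (hm : 2 * m ≤ K + 1) (hk1 : 1 ≤ k) (hk : k + m ≤ K + 1)
    (he : e + f = K * m) : (m : ℝ) - f / k ≤ pot e m (K + 1 - m) := by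
  obtain ⟨t, ht⟩ : ∃ t, K + 1 = m + t := ⟨K + 1 - m, by omega⟩
  have hKt : K + 1 - m = t := by omega
  rw [hKt]
  have ht1 : k ≤ t := by omega
  have hk0 : (0 : ℝ) < k := by exact_mod_cast hk1
  have ht0 : (0 : ℝ) < t := by exact_mod_cast (by omega : 0 < t)
  have e1 : (e : ℝ) = K * m - f := by
    have : (e : ℝ) + f = K * m := by exact_mod_cast he
    linarith
  have e2 : (K : ℝ) = m + t - 1 := by
    have : (K : ℝ) + 1 = m + t := by exact_mod_cast ht
    linarith
  unfold pot
  have e3 : ((e : ℝ) - m * (m - 1)) / t = m - f / t := by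
    rw [e1, e2]
    field_simp
    ring
  rw [e3]
  have h1 : (f : ℝ) / t ≤ f / k := by
    apply div_le_div_of_nonneg_left (Nat.cast_nonneg f) hk0
    exact_mod_cast ht1
  linarith

/-- core case `l ≤ k` -/
theorem part_core [Fintype J] (M : Matroid α) (hE : M.E = Set.univ) (k l K : ℕ) (hk1 : 1 ≤ k)
    (hl1 : 1 ≤ l) (hlk : l ≤ k) (hK : K + 1 = k + l)
    (hM : ∀ X : Finset α, ∃ I : Finset α, I ⊆ X ∧ M.Indep (I : Set α) ∧ X.card ≤ k * I.card)
    (π : α → J) (A : Finset α) (hπ : ∀ j, (Ap π A j).card ≤ l) :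
    ∃ f : α → Fin K, ∀ c, M.Indep {x | x ∈ A ∧ f x = c} ∧
      ∀ x ∈ A, ∀ y ∈ A, f x = f y → π x = π y → x = y := by
  classical
  have hKpos : 0 < K := by omega
  haveI : Nonempty (Fin K) := ⟨⟨0, hKpos⟩⟩
  let U : Finset (α × Fin K) := A ×ˢ univ
  have hU : ∀ x, x ∈ U ↔ x.1 ∈ A := by intro x; simp [U]
  have hmain := topHall (Scl M) (Srk M) A.card (fun σ => SI.subset_Scl hE σ)
    (fun σ τ h => Scl_mono M h) (fun σ => Scl_idem M σ)
    (fun F G hF _ h => Srk_lt M hE hF h)
    (MC π U) ⟨Finset.empty_subset _, by simp⟩ MC.down ?_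
  · obtain ⟨σ, ⟨hσU, hσc⟩, hr⟩ := hmain
    rw [Srk_Scl] at hr
    have h1 : ∀ c, rkN M (sl σ c : Set α) ≤ (sl σ c).card := fun c => rkN_le_card M _
    have hinj : Set.InjOn Prod.fst (σ : Set (α × Fin K)) := by
      intro x hx y hy hxy
      by_contra hne
      exact hσc x hx y hy (Or.inl ⟨hxy, fun h => hne (Prod.ext hxy h)⟩)
    have h2 : σ.card ≤ A.card := by
      rw [← Finset.card_image_of_injOn hinj]
      refine Finset.card_le_card fun a ha => ?_
      obtain ⟨x, hx, rfl⟩ := Finset.mem_image.mp ha
      exact (hU x).mp (hσU hx)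
    have h3 : Srk M σ ≤ σ.card := by
      rw [card_eq_sum_sl]
      exact Finset.sum_le_sum fun c _ => h1 c
    have h4 : ∑ c, rkN M (sl σ c : Set α) = ∑ c, (sl σ c).card := by
      have h5 : Srk M σ = σ.card := by omega
      rw [card_eq_sum_sl] at h5
      exact h5
    have h5 : ∀ c, rkN M (sl σ c : Set α) = (sl σ c).card := fun c =>
      (Finset.sum_eq_sum_iff_of_le (fun c (_ : c ∈ (univ : Finset (Fin K))) => h1 c)).mp h4 c
        (Finset.mem_univ c)
    have h6 : σ.image Prod.fst = A := by
      apply Finset.eq_of_subset_of_card_le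
      · intro a ha
        obtain ⟨x, hx, rfl⟩ := Finset.mem_image.mp ha
        exact (hU x).mp (hσU hx)
      · rw [Finset.card_image_of_injOn hinj]; omega
    have h7 : ∀ a, ∃ c, a ∈ A → (a, c) ∈ σ := by
      intro a
      by_cases ha : a ∈ A
      · rw [← h6] at ha
        obtain ⟨⟨a', c⟩, hx, rfl⟩ := Finset.mem_image.mp ha
        exact ⟨c, fun _ => hx⟩
      · exact ⟨Classical.arbitrary _, fun h => absurd h ha⟩
    choose f hf using h7
    refine ⟨f, fun c => ⟨?_, ?_⟩⟩
    · have h8 := indep_of_rkN M hE (sl σ c) (h5 c).ge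
      refine h8.subset fun x hx => ?_
      obtain ⟨hxA, hxc⟩ := hx
      have := hf x hxA
      rw [hxc] at this
      exact_mod_cast mem_sl.mpr this
    · intro x hx y hy hxy hπxy
      by_contra hne
      exact hσc _ (hf x hx) _ (hf y hy) (Or.inr ⟨hne, hπxy, hxy⟩)
  · intro F hF hrF
    have hpred : (fun σ : Finset (α × Fin K) => MC π U σ ∧ Disjoint σ F) = MC π (U \ F) := by
      funext σ
      apply propext
      constructor
      · rintro ⟨⟨h1, h2⟩, h3⟩
        exact ⟨fun x hx => Finset.mem_sdiff.mpr ⟨h1 hx, Finset.disjoint_left.mp h3 hx⟩, h2⟩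
      · rintro ⟨h1, h2⟩
        exact ⟨⟨fun x hx => (Finset.mem_sdiff.mp (h1 hx)).1, h2⟩,
          Finset.disjoint_left.mpr fun x hx => (Finset.mem_sdiff.mp (h1 hx)).2⟩
    rw [hpred]
    have hWA : ∀ x ∈ U \ F, x.1 ∈ A := fun x hx => (hU x).mp (Finset.mem_sdiff.mp hx).1
    refine list_acy π A.card A (U \ F) (fun j => K + 1 - (Ap π A j).card) (A.card - Srk M F) rfl
      hWA ?_ ?_ ?_
    · intro j
      have := hπ j
      omega
    · intro j
      have h1 : ((Wp π (U \ F) j).image Prod.snd).card ≤ K := by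
        refine (Finset.card_le_univ _).trans ?_
        simp
      have := hπ j
      omega
    · -- the numerical inequality
      have hsplit : ∀ j, (Wp π (U \ F) j).card + (Wp π (U ∩ F) j).card = K * (Ap π A j).card := by
        intro j
        have h1 : (Wp π (U \ F) j).card + (Wp π (U ∩ F) j).card = (Wp π U j).card := by
          rw [← Finset.card_union_of_disjoint]
          · congr 1
            ext x
            simp only [Finset.mem_union, mem_Wp, Finset.mem_sdiff, Finset.mem_inter]
            tauto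
          · rw [Finset.disjoint_left]
            intro x hx hy
            exact (Finset.mem_sdiff.mp (mem_Wp.mp hx).1).2 (Finset.mem_inter.mp (mem_Wp.mp hy).1).2
        rw [h1]
        have h2 : Wp π U j = (Ap π A j) ×ˢ (univ : Finset (Fin K)) := by
          ext x
          simp only [mem_Wp, Finset.mem_product, mem_Ap, hU, Finset.mem_univ, and_true]
        rw [h2, Finset.card_product, Finset.card_univ, Fintype.card_fin, mul_comm]
      have hterm : ∀ j, ((Ap π A j).card : ℝ) - (Wp π (U ∩ F) j).card / k ≤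
          pot (Wp π (U \ F) j).card (Ap π A j).card (K + 1 - (Ap π A j).card) := by
        intro j
        have := hπ j
        exact pot_full (by omega) hk1 (by omega) (hsplit j)
      refine le_trans ?_ (Finset.sum_le_sum fun j _ => hterm j)
      rw [Finset.sum_sub_distrib, ← Finset.sum_div]
      have h1 : ∑ j, ((Ap π A j).card : ℝ) = A.card := by
        rw [← Nat.cast_sum]
        congr 1
        exact (Finset.card_eq_sum_card_fiberwise (f := π) (t := univ) (fun x _ => by simp)).symm
      have h2 : ∑ j, ((Wp π (U ∩ F) j).card : ℝ) = (U ∩ F).card := by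
        rw [← Nat.cast_sum]
        congr 1
        exact (Finset.card_eq_sum_card_fiberwise (f := fun x : α × Fin K => π x.1) (t := univ)
          (fun x _ => by simp)).symm
      rw [h1, h2]
      have h3 : ((U ∩ F).card : ℝ) ≤ k * Srk M F := by
        have h4 := (Finset.card_le_card (Finset.inter_subset_right (s₁ := U) (s₂ := F))).trans
          (card_le_Srk M hM F)
        exact_mod_cast h4
      have hk0 : (0 : ℝ) < k := by exact_mod_cast hk1
      have h4 : ((U ∩ F).card : ℝ) / k ≤ Srk M F := by
        rw [div_le_iff₀ hk0]; linarith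
      rw [Nat.cast_sub hrF.le]
      linarith

end

end ABC
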