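import Pool.Agent.ABC.Rank

/-!
# Exchange between disjoint classes, and paving matroids
-/

namespace ABC

open Finset

noncomputable section

variable {α κ : Type} [Fintype α] [DecidableEq α] [Fintype κ] [DecidableEq κ]

/-- symmetric exchange for independent sets -/
theorem sym_exch (M : Matroid α) (hE : M.E = Set.univ) {A B : Finset α} (hA : M.Indep (A : Set α))
    (hB : M.Indep (B : Set α)) (hcard : B.card ≤ A.card) {x : α} (hxB : x ∈ B) (hxA : x ∉ A) :
    ∃ y ∈ A, y ∉ B ∧ M.Indep ((insert x (A.erase y) : Finset α) : Set α) ∧
      M.Indep ((insert y (B.erase x) : Finset α) : Set α) := by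
  have hBx : M.Indep ((B.erase x : Finset α) : Set α) :=
    hB.subset (by exact_mod_cast Finset.erase_subset x B)
  by_cases hAx : M.Indep (insert x (A : Set α))
  · obtain ⟨y, hyA, hyB, hy⟩ := hBx.augment_finset hA (by
      rw [Finset.card_erase_of_mem hxB]
      have := Finset.card_pos.mpr ⟨x, hxB⟩
      omega)
    have hyx : y ≠ x := fun h => hxA (h ▸ hyA)
    refine ⟨y, hyA, fun h => hyB (Finset.mem_erase.mpr ⟨hyx, h⟩), ?_, by
      rw [Finset.coe_insert]; exact hy⟩
    refine hAx.subset ?_
    rw [Finset.coe_insert]
    exact Set.insert_subset_insert (by exact_mod_cast Finset.erase_subset y A)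
  · have hxcl : x ∈ M.closure (A : Set α) := by
      by_contra h
      apply hAx
      rw [hA.insert_indep_iff]
      left
      exact ⟨by rw [hE]; trivial, h⟩
    have hxA' : x ∉ (A : Set α) := by exact_mod_cast hxA
    have hC := hA.fundCircuit_isCircuit hxcl hxA'
    have hsub := M.fundCircuit_subset_insert x (A : Set α)
    obtain ⟨y, hyC, hyx, hycl⟩ : ∃ y ∈ M.fundCircuit x (A : Set α), y ≠ x ∧
        y ∉ M.closure ((B.erase x : Finset α) : Set α) := by
      by_contra hcon
      push Not at hcon
      have h1 : M.fundCircuit x (A : Set α) \ {x} ⊆ M.closure ((B.erase x : Finset α) : Set α) := by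
        rintro y ⟨hy, hyx⟩
        exact hcon y hy hyx
      have h2 := hC.mem_closure_sdiff_singleton_of_mem (M.mem_fundCircuit x (A : Set α))
      have h3 := M.closure_subset_closure_of_subset_closure h1 h2
      have h4 : x ∉ (B.erase x : Finset α) := Finset.notMem_erase x B
      have h5 : M.Indep (insert x ((B.erase x : Finset α) : Set α)) := by
        rw [← Finset.coe_insert, Finset.insert_erase hxB]; exact hB
      rw [hBx.insert_indep_iff] at h5
      rcases h5 with h5 | h5
      · exact h5.2 h3
      · exact h4 (by exact_mod_cast h5)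
    have hyA : y ∈ A := by
      rcases hsub hyC with h | h
      · exact absurd h hyx
      · exact_mod_cast h
    refine ⟨y, hyA, fun h => hycl (M.subset_closure _ (by rw [hE]; exact Set.subset_univ _)
      (by exact_mod_cast Finset.mem_erase.mpr ⟨hyx, h⟩)), ?_, ?_⟩
    · have h1 := (hA.mem_fundCircuit_iff hxcl hxA').mp hyC
      refine h1.subset ?_
      rw [Finset.coe_insert, Finset.coe_erase]
      rintro z (rfl | ⟨hz, hzy⟩)
      · exact ⟨Set.mem_insert _ _, fun h => hyx h.symm⟩
      · exact ⟨Set.mem_insert_of_mem _ hz, hzy⟩
    · rw [Finset.coe_insert, hBx.insert_indep_iff]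
      left
      exact ⟨by rw [hE]; trivial, hycl⟩

/-- colour class -/
def cls (f : α → κ) (c : κ) : Finset α := univ.filter fun x => f x = c

theorem mem_cls {f : α → κ} {c : κ} {x : α} : x ∈ cls f c ↔ f x = c := by simp [cls]

/-- swap the colours of `x` (colour `b`) and `y` (colour `a`) -/
def swp (f : α → κ) (x y : α) (a b : κ) : α → κ := Function.update (Function.update f x a) y b

theorem cls_swp_a {f : α → κ} {x y : α} {a b : κ} (hx : f x = b) (hy : f y = a) (hab : a ≠ b) :
    cls (swp f x y a b) a = insert x ((cls f a).erase y) := by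
  have hxy : x ≠ y := fun h => hab (by rw [← hy, ← hx, h])
  ext z
  rw [mem_cls, swp, Finset.mem_insert, Finset.mem_erase, mem_cls]
  by_cases hzy : z = y
  · subst hzy
    rw [Function.update_self]
    constructor
    · intro h; exact absurd h.symm hab
    · rintro (h | h)
      · exact absurd h.symm hxy
      · exact absurd rfl h.1
  · rw [Function.update_of_ne hzy]
    by_cases hzx : z = x
    · subst hzx
      rw [Function.update_self]
      simp
    · rw [Function.update_of_ne hzx]
      constructor
      · intro h; exact Or.inr ⟨hzy, h⟩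
      · rintro (h | h)
        · exact absurd h hzx
        · exact h.2

theorem cls_swp_b {f : α → κ} {x y : α} {a b : κ} (hx : f x = b) (hy : f y = a) (hab : a ≠ b) :
    cls (swp f x y a b) b = insert y ((cls f b).erase x) := by
  have hxy : x ≠ y := fun h => hab (by rw [← hy, ← hx, h])
  ext z
  rw [mem_cls, swp, Finset.mem_insert, Finset.mem_erase, mem_cls]
  by_cases hzy : z = y
  · subst hzy
    rw [Function.update_self]
    simp
  · rw [Function.update_of_ne hzy]
    by_cases hzx : z = x
    · subst hzx
      rw [Function.update_self]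
      constructor
      · intro h; exact absurd h hab
      · rintro (h | h)
        · exact absurd h hzy
        · exact absurd rfl h.1
    · rw [Function.update_of_ne hzx]
      constructor
      · intro h; exact Or.inr ⟨hzx, h⟩
      · rintro (h | h)
        · exact absurd h hzy
        · exact h.2

theorem cls_swp_c {f : α → κ} {x y : α} {a b c : κ} (hx : f x = b) (hy : f y = a) (hca : c ≠ a)
    (hcb : c ≠ b) : cls (swp f x y a b) c = cls f c := by
  ext z
  rw [mem_cls, swp, mem_cls]
  by_cases hzy : z = y
  · subst hzy
    rw [Function.update_self, hy]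
    exact ⟨fun h => absurd h.symm hcb, fun h => absurd h.symm hca⟩
  · rw [Function.update_of_ne hzy]
    by_cases hzx : z = x
    · subst hzx
      rw [Function.update_self, hx]
      exact ⟨fun h => absurd h.symm hca, fun h => absurd h.symm hcb⟩
    · rw [Function.update_of_ne hzx]

theorem card_exch {A : Finset α} {x y : α} (hx : x ∉ A) (hy : y ∈ A) :
    (insert x (A.erase y)).card = A.card := by
  rw [Finset.card_insert_of_notMem fun h => hx (Finset.mem_of_mem_erase h),
    Finset.card_erase_add_one hy]

theorem sum_cls (f : α → κ) : ∑ c, (cls f c).card = Fintype.card α := by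
  rw [← Finset.card_univ]
  exact (Finset.card_eq_sum_card_fiberwise (f := f) (t := univ) (fun x _ => by simp)).symm

/-- an independent partition can be made equitable -/
theorem exists_equitable (M : Matroid α) (f₀ : α → κ) (h₀ : ∀ c, M.Indep (cls f₀ c : Set α)) :
    ∃ f : α → κ, (∀ c, M.Indep (cls f c : Set α)) ∧ ∀ a b, (cls f a).card ≤ (cls f b).card + 1 := by
  classical
  let S : Finset (α → κ) := univ.filter fun f => ∀ c, M.Indep (cls f c : Set α)
  have hS : ∀ f, f ∈ S ↔ ∀ c, M.Indep (cls f c : Set α) := by intro f; simp [S]
  obtain ⟨f, hf, hmin⟩ := Finset.exists_min_image S (fun f => ∑ c, (cls f c).card ^ 2)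
    ⟨f₀, (hS f₀).mpr h₀⟩
  rw [hS] at hf
  refine ⟨f, hf, fun a b => ?_⟩
  by_contra hlt
  push Not at hlt
  have hab : a ≠ b := by rintro rfl; omega
  obtain ⟨e, heA, heB, he⟩ := (hf b).augment_finset (hf a) (by omega)
  have hfe : f e = a := mem_cls.mp heA
  have ha : cls (Function.update f e b) a = (cls f a).erase e := by
    ext z
    rw [mem_cls, Finset.mem_erase, mem_cls]
    by_cases hz : z = e
    · subst hz
      rw [Function.update_self]
      exact ⟨fun h => absurd h.symm hab, fun h => absurd rfl h.1⟩
    · rw [Function.update_of_ne hz]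
      exact ⟨fun h => ⟨hz, h⟩, fun h => h.2⟩
  have hb : cls (Function.update f e b) b = insert e (cls f b) := by
    ext z
    rw [mem_cls, Finset.mem_insert, mem_cls]
    by_cases hz : z = e
    · subst hz
      rw [Function.update_self]
      simp
    · rw [Function.update_of_ne hz]
      exact ⟨fun h => Or.inr h, fun h => h.resolve_left hz⟩
  have hc : ∀ c, c ≠ a → c ≠ b → cls (Function.update f e b) c = cls f c := by
    intro c hca hcb
    ext z
    rw [mem_cls, mem_cls]
    by_cases hz : z = e
    · subst hz
      rw [Function.update_self, hfe]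
      exact ⟨fun h => absurd h.symm hcb, fun h => absurd h.symm hca⟩
    · rw [Function.update_of_ne hz]
  have hgood : Function.update f e b ∈ S := by
    rw [hS]
    intro c
    by_cases hca : c = a
    · subst hca
      rw [ha]
      exact (hf c).subset (by exact_mod_cast Finset.erase_subset e _)
    · by_cases hcb : c = b
      · subst hcb
        rw [hb, Finset.coe_insert]
        exact he
      · rw [hc c hca hcb]; exact hf c
  have h1 := hmin _ hgood
  have hbe : b ∈ univ.erase a := Finset.mem_erase.mpr ⟨Ne.symm hab, Finset.mem_univ b⟩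
  rw [← Finset.add_sum_erase univ (fun c => (cls f c).card ^ 2) (Finset.mem_univ a),
    ← Finset.add_sum_erase univ (fun c => (cls (Function.update f e b) c).card ^ 2)
      (Finset.mem_univ a),
    ← Finset.add_sum_erase (univ.erase a) (fun c => (cls f c).card ^ 2) hbe,
    ← Finset.add_sum_erase (univ.erase a) (fun c => (cls (Function.update f e b) c).card ^ 2) hbe] at h1
  have h2 : ∑ c ∈ (univ.erase a).erase b, (cls (Function.update f e b) c).card ^ 2 =
      ∑ c ∈ (univ.erase a).erase b, (cls f c).card ^ 2 := by
    refine Finset.sum_congr rfl fun c hc' => ?_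
    rw [hc c (Finset.ne_of_mem_erase (Finset.mem_of_mem_erase hc')) (Finset.ne_of_mem_erase hc')]
  have h3 : (cls (Function.update f e b) a).card + 1 = (cls f a).card := by
    rw [ha, Finset.card_erase_add_one heA]
  have h4 : (cls (Function.update f e b) b).card = (cls f b).card + 1 := by
    rw [hb, Finset.card_insert_of_notMem heB]
  rw [h2, h4, ← h3] at h1
  rw [← h3] at hlt
  nlinarith

end

end ABC
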