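import Pool.Agent.ABC.PartSum

/-!
# Peeling transversals of the large parts; the general `k + l - 1` theorem
-/

namespace ABC

open Finset

noncomputable section

variable {α J : Type} [Fintype α] [DecidableEq α] [DecidableEq J]

/-- an independent set meeting every part of size at least `k` exactly once -/
theorem big_transversal [Fintype J] (M : Matroid α) (hE : M.E = Set.univ) (k : ℕ) (hk1 : 1 ≤ k)
    (hM : ∀ X : Finset α, ∃ I : Finset α, I ⊆ X ∧ M.Indep (I : Set α) ∧ X.card ≤ k * I.card)
    (π : α → J) (A : Finset α) :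
    ∃ T : Finset α, T ⊆ A ∧ M.Indep (T : Set α) ∧ (∀ x ∈ T, ∀ y ∈ T, π x = π y → x = y) ∧
      ∀ j, k ≤ (Ap π A j).card → ∃ x ∈ T, π x = j := by
  classical
  rcases isEmpty_or_nonempty α with hα | hα
  · refine ⟨∅, Finset.empty_subset _, by rw [Finset.coe_empty]; exact M.empty_indep, by simp, ?_⟩
    intro j hj
    have : Ap π A j = ∅ := Finset.eq_empty_of_isEmpty _
    rw [this, Finset.card_empty] at hj
    omega
  let cl : Finset α → Finset α := fun σ => univ.filter fun x => π x ∈ σ.image π
  let r : Finset α → ℕ := fun F => (F.image π).card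
  let big : Finset J := univ.filter fun j => k ≤ (Ap π A j).card
  have hbig : ∀ j, j ∈ big ↔ k ≤ (Ap π A j).card := by intro j; simp [big]
  have hcl : ∀ σ x, x ∈ cl σ ↔ π x ∈ σ.image π := by intro σ x; simp [cl]
  have hle : ∀ σ, σ ⊆ cl σ := by
    intro σ x hx
    rw [hcl]
    exact Finset.mem_image_of_mem _ hx
  have hmono : ∀ σ τ : Finset α, σ ⊆ τ → cl σ ⊆ cl τ := by
    intro σ τ h x hx
    rw [hcl] at hx ⊢
    exact Finset.image_subset_image h hx
  have himg : ∀ σ, (cl σ).image π = σ.image π := by
    intro σ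
    apply subset_antisymm
    · intro a ha
      obtain ⟨x, hx, rfl⟩ := Finset.mem_image.mp ha
      exact (hcl σ x).mp hx
    · exact Finset.image_subset_image (hle σ)
  have hidem : ∀ σ, cl (cl σ) = cl σ := by
    intro σ
    ext x
    rw [hcl, hcl, himg]
  have hr : ∀ F G : Finset α, cl F = F → cl G = G → F ⊂ G → r F < r G := by
    intro F G hF hG hFG
    refine Finset.card_lt_card (Finset.ssubset_iff_subset_ne.mpr
      ⟨Finset.image_subset_image hFG.1, fun h => hFG.2 ?_⟩)
    rw [← hF, ← hG]
    intro x hx
    rw [hcl] at hx ⊢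
    rw [h]; exact hx
  have hmain := topHall cl r big.card hle hmono hidem hr
    (fun σ => M.Indep (σ : Set α) ∧ ∀ x ∈ σ, x ∈ A ∧ π x ∈ big)
    ⟨by rw [Finset.coe_empty]; exact M.empty_indep, by simp⟩
    (fun σ τ h h' => ⟨h'.1.subset (by exact_mod_cast h), fun x hx => h'.2 x (h hx)⟩) ?_
  · obtain ⟨σ, ⟨h1, h2⟩, h3⟩ := hmain
    have h4 : σ.image π = big := by
      apply Finset.eq_of_subset_of_card_le
      · intro j hj
        obtain ⟨x, hx, rfl⟩ := Finset.mem_image.mp hj
        exact (h2 x hx).2
      · have : r (cl σ) = (σ.image π).card := by simp only [r, himg]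
        rw [← this]; exact h3
    have h5 : ∀ j ∈ big, ∃ x ∈ σ, π x = j := by
      intro j hj
      rw [← h4] at hj
      exact Finset.mem_image.mp hj
    choose! g hg1 hg2 using h5
    refine ⟨big.image g, ?_, ?_, ?_, ?_⟩
    · intro x hx
      obtain ⟨j, hj, rfl⟩ := Finset.mem_image.mp hx
      exact (h2 _ (hg1 j hj)).1
    · refine h1.subset fun x hx => ?_
      obtain ⟨j, hj, rfl⟩ := Finset.mem_image.mp (Finset.mem_coe.mp hx)
      exact hg1 j hj
    · intro x hx y hy hxy
      obtain ⟨j, hj, rfl⟩ := Finset.mem_image.mp hx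
      obtain ⟨j', hj', rfl⟩ := Finset.mem_image.mp hy
      rw [hg2 j hj, hg2 j' hj'] at hxy
      rw [hxy]
    · intro j hj
      exact ⟨g j, Finset.mem_image_of_mem g ((hbig j).mpr hj), hg2 j ((hbig j).mpr hj)⟩
  · intro F hF hrF
    let W : Finset α := univ.filter fun x => x ∉ F ∧ x ∈ A ∧ π x ∈ big
    have hW : ∀ x, x ∈ W ↔ x ∉ F ∧ x ∈ A ∧ π x ∈ big := by intro x; simp [W]
    have hpred : (fun σ : Finset α => (M.Indep (σ : Set α) ∧ ∀ x ∈ σ, x ∈ A ∧ π x ∈ big) ∧
        Disjoint σ F) = fun σ : Finset α => (∀ _ : Unit, M.Indep (σ : Set α)) ∧ σ ⊆ W := by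
      funext σ
      apply propext
      constructor
      · rintro ⟨⟨h1, h2⟩, h3⟩
        exact ⟨fun _ => h1, fun x hx => (hW x).mpr ⟨Finset.disjoint_left.mp h3 hx, h2 x hx⟩⟩
      · rintro ⟨h1, h2⟩
        exact ⟨⟨h1 (), fun x hx => ((hW x).mp (h2 hx)).2⟩,
          Finset.disjoint_left.mpr fun x hx => ((hW x).mp (h2 hx)).1⟩
    rw [hpred]
    refine acy_inter (ι := Unit) (fun _ σ => M.Indep (σ : Set α))
      (fun _ σ => univ.filter fun x => x ∈ M.closure (σ : Set α)) W _ (fun _ => (k : ℝ))
      (fun _ σ τ h h' => h'.subset (by exact_mod_cast h)) ?_ ?_ ?_ ?_ ?_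
    · intro _ σ _ x hx
      simp only [Finset.mem_filter, Finset.mem_univ, true_and]
      exact M.subset_closure _ (by rw [hE]; exact Set.subset_univ _) hx
    · intro _ σ v h _ hn
      simp only [Finset.mem_filter, Finset.mem_univ, true_and]
      by_contra hcon
      apply hn
      rw [Finset.coe_insert, h.insert_indep_iff]
      left
      exact ⟨by rw [hE]; trivial, hcon⟩
    · intro _ σ σ' h h' hc hs
      have h1 : (σ' : Set α) ⊆ M.closure (σ : Set α) := by
        intro x hx
        have := hs hx
        simp only [Finset.mem_filter, Finset.mem_univ, true_and] at this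
        exact this
      ext x
      simp only [Finset.mem_filter, Finset.mem_univ, true_and]
      rw [closure_eq_of_card hE h h' h1 hc.le]
    · intro _ σ h _
      obtain ⟨I, h1, h2, h3⟩ := hM (univ.filter fun x => x ∈ M.closure (σ : Set α))
      have h4 : I.card ≤ σ.card := by
        refine indep_card_le h h2 fun x hx => ?_
        have := h1 hx
        simp only [Finset.mem_filter, Finset.mem_univ, true_and] at this
        exact this
      have h5 := (Finset.card_le_card (Finset.inter_subset_left
        (s₁ := univ.filter fun x => x ∈ M.closure (σ : Set α)) (s₂ := W))).trans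
        (h3.trans (Nat.mul_le_mul_left k h4))
      exact_mod_cast h5
    · intro i hi
      rw [Finset.univ_unique, Finset.sum_singleton]
      have h1 : k * (big \ F.image π).card ≤ W.card := by
        rw [Finset.card_eq_sum_card_fiberwise (f := π) (s := W) (t := big \ F.image π)
          (fun x hx => by
            obtain ⟨h2, _, h4⟩ := (hW x).mp hx
            refine Finset.mem_coe.mpr (Finset.mem_sdiff.mpr ⟨h4, fun h5 => h2 ?_⟩)
            rw [← hF, hcl]; exact h5)]
        rw [mul_comm, ← smul_eq_mul]
        refine Finset.card_nsmul_le_sum _ _ _ fun j hj => ?_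
        obtain ⟨h2, h3⟩ := Finset.mem_sdiff.mp hj
        refine ((hbig j).mp h2).trans (Finset.card_le_card fun x hx => ?_)
        obtain ⟨h4, h5⟩ := mem_Ap.mp hx
        refine Finset.mem_filter.mpr ⟨(hW x).mpr ⟨fun h6 => h3 ?_, h4, by rw [h5]; exact h2⟩, h5⟩
        rw [← h5]; exact Finset.mem_image_of_mem π h6
      have h2 : big.card ≤ (big \ F.image π).card + r F := by
        have := Finset.card_le_card_sdiff_add_card (s := big) (t := F.image π)
        exact this
      have h3 : i < (big \ F.image π).card := by omega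
      have h4 : k * i < W.card := lt_of_lt_of_le (Nat.mul_lt_mul_of_pos_left h3 hk1) h1
      exact_mod_cast h4

/-- the `k + l - 1` theorem for a matroid and a partition matroid -/
theorem part_sum [Fintype J] (M : Matroid α) (hE : M.E = Set.univ) (k : ℕ) (hk1 : 1 ≤ k)
    (hM : ∀ X : Finset α, ∃ I : Finset α, I ⊆ X ∧ M.Indep (I : Set α) ∧ X.card ≤ k * I.card)
    (π : α → J) (l : ℕ) : ∀ A : Finset α, 1 ≤ l → (∀ j, (Ap π A j).card ≤ l) →
    ∃ f : α → ℕ, (∀ x, f x < k + l - 1) ∧ ∀ c, M.Indep {x | x ∈ A ∧ f x = c} ∧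
      ∀ x ∈ A, ∀ y ∈ A, f x = f y → π x = π y → x = y := by
  induction l with
  | zero => intro A h; exact absurd h (by omega)
  | succ l ih =>
    intro A _ hA
    rcases Nat.lt_or_ge l k with hlk | hlk
    · obtain ⟨f, hf⟩ := part_core M hE k (l + 1) (k + l) hk1 (by omega) hlk (by omega) hM π A hA
      refine ⟨fun x => (f x).val, fun x => ?_, fun c => ⟨?_, ?_⟩⟩
      · have h1 : (f x).val < k + l := (f x).isLt
        change (f x).val < k + (l + 1) - 1
        omega
      · by_cases hc : c < k + l
        · refine (hf ⟨c, hc⟩).1.subset fun x hx => ⟨hx.1, Fin.ext hx.2⟩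
        · have : {x | x ∈ A ∧ ((f x).val : ℕ) = c} = ∅ := by
            apply Set.eq_empty_of_forall_notMem
            rintro x ⟨_, hx⟩
            exact hc (hx ▸ (f x).isLt)
          rw [this]; exact M.empty_indep
      · intro x hx y hy hxy hπ
        exact (hf (f x)).2 x hx y hy (Fin.ext hxy) hπ
    · obtain ⟨T, hTA, hTi, hTinj, hTbig⟩ := big_transversal M hE k hk1 hM π A
      have hA' : ∀ j, (Ap π (A \ T) j).card ≤ l := by
        intro j
        have hsub : Ap π (A \ T) j ⊆ Ap π A j := by
          intro x hx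
          obtain ⟨h1, h2⟩ := mem_Ap.mp hx
          exact mem_Ap.mpr ⟨(Finset.mem_sdiff.mp h1).1, h2⟩
        by_cases hj : (Ap π A j).card ≤ l
        · exact (Finset.card_le_card hsub).trans hj
        · have h1 := hA j
          obtain ⟨x, hxT, hxj⟩ := hTbig j (by omega)
          have h2 : Ap π (A \ T) j ⊂ Ap π A j := by
            refine Finset.ssubset_iff_subset_ne.mpr ⟨hsub, fun h3 => ?_⟩
            have h4 : x ∈ Ap π A j := mem_Ap.mpr ⟨hTA hxT, hxj⟩
            rw [← h3] at h4
            exact (Finset.mem_sdiff.mp (mem_Ap.mp h4).1).2 hxT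
          have := Finset.card_lt_card h2
          omega
      obtain ⟨f, hf1, hf2⟩ := ih (A \ T) (by omega) hA'
      refine ⟨fun x => if x ∈ T then k + l - 1 else f x, fun x => ?_, fun c => ⟨?_, ?_⟩⟩
      · have h1 := hf1 x
        change (if x ∈ T then k + l - 1 else f x) < k + (l + 1) - 1
        split_ifs <;> omega
      · by_cases hc : c = k + l - 1
        · refine hTi.subset fun x hx => ?_
          have h2 : (if x ∈ T then k + l - 1 else f x) = c := hx.2
          by_contra h3
          have h4 : x ∉ T := fun h => h3 (by exact_mod_cast h)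
          rw [if_neg h4] at h2
          have := hf1 x
          omega
        · refine (hf2 c).1.subset fun x hx => ?_
          have h1 : x ∈ A := hx.1
          have h2 : (if x ∈ T then k + l - 1 else f x) = c := hx.2
          by_cases h3 : x ∈ T
          · rw [if_pos h3] at h2
            exact absurd h2.symm hc
          · rw [if_neg h3] at h2
            exact ⟨Finset.mem_sdiff.mpr ⟨h1, h3⟩, h2⟩
      · intro x hx y hy hxy hπ
        change (if x ∈ T then k + l - 1 else f x) = (if y ∈ T then k + l - 1 else f y) at hxy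
        by_cases h3 : x ∈ T
        · by_cases h4 : y ∈ T
          · exact hTinj x h3 y h4 hπ
          · rw [if_pos h3, if_neg h4] at hxy
            have := hf1 y
            omega
        · by_cases h4 : y ∈ T
          · rw [if_neg h3, if_pos h4] at hxy
            have := hf1 x
            omega
          · rw [if_neg h3, if_neg h4] at hxy
            exact (hf2 (f x)).2 x (Finset.mem_sdiff.mpr ⟨hx, h3⟩) y (Finset.mem_sdiff.mpr ⟨hy, h4⟩)
              hxy hπ

end

end ABC
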