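import Pool.Agent.ABC.Slice

/-!
# The rank function of a matroid on a finite type, as a natural number
-/

namespace ABC

open Finset

noncomputable section

variable {α κ : Type} [Fintype α] [DecidableEq α] [Fintype κ] [DecidableEq κ]

/-- rank -/
def rkN (M : Matroid α) (X : Set α) : ℕ := (M.eRk X).toNat

theorem eRk_ne_top (M : Matroid α) (X : Set α) : M.eRk X ≠ ⊤ := by
  have h1 := M.eRk_le_encard X
  have h2 : X.encard ≠ ⊤ := Set.encard_ne_top_iff.mpr (Set.toFinite X)
  exact ne_top_of_le_ne_top h2 h1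

theorem coe_rkN (M : Matroid α) (X : Set α) : ((rkN M X : ℕ) : ℕ∞) = M.eRk X :=
  ENat.coe_toNat (eRk_ne_top M X)

theorem exists_basis (M : Matroid α) (hE : M.E = Set.univ) (X : Set α) :
    ∃ I : Finset α, (I : Set α) ⊆ X ∧ M.Indep (I : Set α) ∧ I.card = rkN M X ∧
      X ⊆ M.closure (I : Set α) := by
  classical
  obtain ⟨I, hI⟩ := M.exists_isBasis X (by rw [hE]; exact Set.subset_univ X)
  refine ⟨I.toFinite.toFinset, ?_, ?_, ?_, ?_⟩
  · rw [Set.Finite.coe_toFinset]; exact hI.subset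
  · rw [Set.Finite.coe_toFinset]; exact hI.indep
  · have h1 : (I.toFinite.toFinset.card : ℕ∞) = (rkN M X : ℕ∞) := by
      rw [coe_rkN, ← hI.encard_eq_eRk, ← Set.encard_coe_eq_coe_finsetCard, Set.Finite.coe_toFinset]
    exact_mod_cast h1
  · rw [Set.Finite.coe_toFinset]; exact hI.subset_closure

theorem card_le_rkN (M : Matroid α) {X : Set α} {J : Finset α} (hJ : M.Indep (J : Set α))
    (h : (J : Set α) ⊆ X) : J.card ≤ rkN M X := by
  have h1 := hJ.encard_le_eRk_of_subset h
  rw [Set.encard_coe_eq_coe_finsetCard, ← coe_rkN] at h1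
  exact_mod_cast h1

theorem rkN_mono (M : Matroid α) {X Y : Set α} (h : X ⊆ Y) : rkN M X ≤ rkN M Y := by
  have h1 := M.eRk_mono h
  rw [← coe_rkN, ← coe_rkN] at h1
  exact_mod_cast h1

theorem rkN_closure (M : Matroid α) (X : Set α) : rkN M (M.closure X) = rkN M X := by
  unfold rkN; rw [Matroid.eRk_closure_eq]

theorem rkN_le_card (M : Matroid α) (X : Finset α) : rkN M (X : Set α) ≤ X.card := by
  have h1 := M.eRk_le_encard (X : Set α)
  rw [Set.encard_coe_eq_coe_finsetCard, ← coe_rkN] at h1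
  exact_mod_cast h1

theorem indep_of_rkN (M : Matroid α) (hE : M.E = Set.univ) (X : Finset α)
    (h : X.card ≤ rkN M (X : Set α)) : M.Indep (X : Set α) := by
  obtain ⟨I, h1, h2, h3, _⟩ := exists_basis M hE (X : Set α)
  have h4 : I = X := Finset.eq_of_subset_of_card_le (by exact_mod_cast h1) (by omega)
  rw [← h4]; exact h2

theorem rkN_lt (M : Matroid α) (hE : M.E = Set.univ) {X Y : Set α} (hX : M.closure X = X)
    (h : X ⊆ Y) (hne : X ≠ Y) : rkN M X < rkN M Y := by
  classical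
  obtain ⟨e, heY, heX⟩ := Set.exists_of_ssubset (Set.ssubset_iff_subset_ne.mpr ⟨h, hne⟩)
  obtain ⟨I, h1, h2, h3, _⟩ := exists_basis M hE X
  have h4 : e ∉ M.closure (I : Set α) := fun h' =>
    heX (hX ▸ M.closure_subset_closure h1 h')
  have h5 : M.Indep (insert e (I : Set α)) := by
    rw [h2.insert_indep_iff]
    left
    exact ⟨by rw [hE]; trivial, h4⟩
  have h6 : e ∉ I := fun h' => heX (h1 h')
  have h7 : ((insert e I : Finset α) : Set α) ⊆ Y := by
    rw [Finset.coe_insert]
    exact Set.insert_subset heY (h1.trans h)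
  have h8 := card_le_rkN M (by rw [Finset.coe_insert]; exact h5) h7
  rw [Finset.card_insert_of_notMem h6, h3] at h8
  omega

/-- the rank of a set of pairs in the direct sum of copies -/
def Srk (M : Matroid α) (T : Finset (α × κ)) : ℕ := ∑ c, rkN M (sl T c : Set α)

theorem Scl_mono (M : Matroid α) {σ τ : Finset (α × κ)} (h : σ ⊆ τ) : Scl M σ ⊆ Scl M τ := by
  intro x hx
  rw [mem_Scl] at hx ⊢
  exact M.closure_subset_closure (by exact_mod_cast sl_mono h x.2) hx

theorem Scl_idem (M : Matroid α) (σ : Finset (α × κ)) : Scl M (Scl M σ) = Scl M σ := by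
  ext x
  rw [mem_Scl, mem_Scl, sl_Scl, M.closure_closure]

theorem Srk_Scl (M : Matroid α) (σ : Finset (α × κ)) : Srk M (Scl M σ) = Srk M σ := by
  unfold Srk
  refine Finset.sum_congr rfl fun c _ => ?_
  rw [sl_Scl, rkN_closure]

theorem sl_closed (M : Matroid α) {F : Finset (α × κ)} (h : Scl M F = F) (c : κ) :
    M.closure (sl F c : Set α) = (sl F c : Set α) := by
  rw [← sl_Scl, h]

theorem Srk_lt (M : Matroid α) (hE : M.E = Set.univ) {F G : Finset (α × κ)} (hF : Scl M F = F)
    (h : F ⊂ G) : Srk M F < Srk M G := by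
  refine Finset.sum_lt_sum (fun c _ => rkN_mono M (by exact_mod_cast sl_mono h.1 c)) ?_
  obtain ⟨⟨s, c⟩, h1, h2⟩ := Finset.exists_of_ssubset h
  refine ⟨c, Finset.mem_univ c, rkN_lt M hE (sl_closed M hF c) (by exact_mod_cast sl_mono h.1 c) ?_⟩
  intro h3
  have h4 : s ∈ sl F c := by
    have : (s : α) ∈ (sl G c : Set α) := by exact_mod_cast mem_sl.mpr h1
    rw [← h3] at this
    exact_mod_cast this
  exact h2 (mem_sl.mp h4)

theorem card_le_Srk (M : Matroid α) {k : ℕ}
    (hM : ∀ X : Finset α, ∃ I : Finset α, I ⊆ X ∧ M.Indep (I : Set α) ∧ X.card ≤ k * I.card)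
    (F : Finset (α × κ)) : F.card ≤ k * Srk M F := by
  rw [card_eq_sum_sl, Srk, Finset.mul_sum]
  refine Finset.sum_le_sum fun c _ => ?_
  obtain ⟨I, h1, h2, h3⟩ := hM (sl F c)
  exact h3.trans (Nat.mul_le_mul_left k (card_le_rkN M h2 (by exact_mod_cast h1)))

end

end ABC
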