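import Mathlib

/-!
# Signed chains on finite sets

Chains on a finite vertex type `V` with real coefficients are functions `Finset V → ℝ`.
`sg v σ` is the sign of inserting `v` in `σ`; `bd` is the boundary, `cb` the coboundary of the full
simplex, `ins v` the exterior multiplication by `v`.
-/

namespace ABC

open Finset

noncomputable section

variable {V : Type*} [Fintype V] [DecidableEq V]

/-- the position of a vertex in a fixed linear order -/
def pos (v : V) : Fin (Fintype.card V) := Fintype.equivFin V v

theorem pos_inj {v w : V} (h : pos v = pos w) : v = w := (Fintype.equivFin V).injective h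

/-- sign of inserting `v` in `σ` -/
def sg (v : V) (σ : Finset V) : ℝ := (-1) ^ (σ.filter (fun w => pos w < pos v)).card

theorem sg_mul_self (v : V) (σ : Finset V) : sg v σ * sg v σ = 1 := by
  unfold sg
  rw [← pow_add, ← two_mul, pow_mul]
  simp

theorem sg_insert (v w : V) (σ : Finset V) (h : w ∉ σ) :
    sg v (insert w σ) = (if pos w < pos v then -1 else 1) * sg v σ := by
  unfold sg
  rw [Finset.filter_insert]
  by_cases hw : pos w < pos v
  · rw [if_pos hw, if_pos hw, Finset.card_insert_of_notMem (by simp [h]), pow_succ]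
    ring
  · rw [if_neg hw, if_neg hw, one_mul]

theorem sg_insert_comm {v w : V} {σ : Finset V} (h : v ≠ w) (hv : v ∉ σ) (hw : w ∉ σ) :
    sg v (insert w σ) * sg w σ = -(sg w (insert v σ) * sg v σ) := by
  rw [sg_insert v w σ hw, sg_insert w v σ hv]
  have hne : pos v ≠ pos w := fun e => h (pos_inj e)
  rcases lt_or_gt_of_ne hne with h1 | h1
  · rw [if_neg (not_lt_of_gt h1), if_pos h1]; ring
  · rw [if_pos h1, if_neg (not_lt_of_gt h1)]; ring

theorem sg_cross {v w : V} {σ : Finset V} (h : v ≠ w) (hv : v ∉ σ) (hw : w ∉ σ) :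
    sg v (insert w σ) * sg w (insert v σ) = -(sg v σ * sg w σ) := by
  have h1 := sg_insert_comm h hv hw
  have h2 : sg v (insert w σ) * sg w (insert v σ) * (sg w σ * sg w σ) =
      -(sg v σ * sg w σ) * (sg w (insert v σ) * sg w (insert v σ)) := by
    linear_combination (sg w (insert v σ) * sg w σ) * h1
  rw [sg_mul_self, sg_mul_self] at h2
  linarith

/-- a chain -/
abbrev Ch (V : Type*) := Finset V → ℝ

/-- basis chain -/
def del (σ : Finset V) : Ch V := fun τ => if τ = σ then 1 else 0

/-- boundary -/
def bd : Ch V →ₗ[ℝ] Ch V where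
  toFun f := fun σ => ∑ v, if v ∈ σ then 0 else sg v σ * f (insert v σ)
  map_add' f g := by
    funext σ
    simp only [Pi.add_apply]
    rw [← Finset.sum_add_distrib]
    refine Finset.sum_congr rfl fun v _ => ?_
    split_ifs <;> ring
  map_smul' c f := by
    funext σ
    simp only [Pi.smul_apply, smul_eq_mul, RingHom.id_apply]
    rw [Finset.mul_sum]
    refine Finset.sum_congr rfl fun v _ => ?_
    split_ifs <;> ring

theorem bd_apply (f : Ch V) (σ : Finset V) :
    bd f σ = ∑ v, if v ∈ σ then 0 else sg v σ * f (insert v σ) := rfl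

/-- exterior multiplication by a vertex -/
def ins (v : V) : Ch V →ₗ[ℝ] Ch V where
  toFun f := fun τ => if v ∈ τ then sg v (τ.erase v) * f (τ.erase v) else 0
  map_add' f g := by
    funext σ
    simp only [Pi.add_apply]
    split_ifs <;> ring
  map_smul' c f := by
    funext σ
    simp only [Pi.smul_apply, smul_eq_mul, RingHom.id_apply]
    split_ifs <;> ring

theorem ins_apply (v : V) (f : Ch V) (τ : Finset V) :
    ins v f τ = if v ∈ τ then sg v (τ.erase v) * f (τ.erase v) else 0 := rfl

/-- coboundary of the full simplex -/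
def cb (f : Ch V) : Ch V := fun τ => ∑ v, ins v f τ

theorem bd_bd (f : Ch V) : bd (bd f) = 0 := by
  funext σ
  rw [bd_apply]
  let a : V → V → ℝ := fun v w =>
    if v ∈ σ then 0 else if w ∈ insert v σ then 0 else
      sg v σ * (sg w (insert v σ) * f (insert w (insert v σ)))
  have h1 : (∑ v, if v ∈ σ then 0 else sg v σ * bd f (insert v σ)) = ∑ v, ∑ w, a v w := by
    refine Finset.sum_congr rfl fun v _ => ?_
    by_cases hv : v ∈ σ
    · simp [a, hv]
    · rw [if_neg hv, bd_apply, Finset.mul_sum]
      refine Finset.sum_congr rfl fun w _ => ?_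
      simp only [a, if_neg hv]
      split_ifs <;> ring
  have h2 : ∀ v w, a v w = -(a w v) := by
    intro v w
    by_cases hvw : v = w
    · subst hvw
      by_cases hv : v ∈ σ
      · simp [a, hv]
      · simp [a]
    by_cases hv : v ∈ σ
    · simp [a, hv]
    by_cases hw : w ∈ σ
    · simp [a, hw]
    have hw' : w ∉ insert v σ := by
      rw [Finset.mem_insert]; rintro (h | h); exacts [hvw h.symm, hw h]
    have hv' : v ∉ insert w σ := by
      rw [Finset.mem_insert]; rintro (h | h); exacts [hvw h, hv h]
    simp only [a, if_neg hv, if_neg hw, if_neg hw', if_neg hv']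
    rw [Finset.insert_comm v w σ]
    have h3 := sg_insert_comm (Ne.symm hvw) hw hv
    linear_combination (f (insert w (insert v σ))) * h3
  have h3 : ∑ v, ∑ w, a v w = -(∑ v, ∑ w, a v w) := by
    calc ∑ v, ∑ w, a v w = ∑ v, ∑ w, -(a w v) :=
          Finset.sum_congr rfl fun v _ => Finset.sum_congr rfl fun w _ => h2 v w
      _ = -(∑ v, ∑ w, a w v) := by simp only [Finset.sum_neg_distrib]
      _ = -(∑ v, ∑ w, a v w) := by rw [Finset.sum_comm]
  rw [h1]
  simp only [Pi.zero_apply]
  linarith

theorem bd_ins (v : V) (f : Ch V) : bd (ins v f) + ins v (bd f) = f := by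
  funext σ
  simp only [Pi.add_apply]
  by_cases hv : v ∈ σ
  · obtain ⟨σ', hσ', rfl⟩ : ∃ σ', v ∉ σ' ∧ insert v σ' = σ :=
      ⟨σ.erase v, Finset.notMem_erase v σ, Finset.insert_erase hv⟩
    rw [ins_apply, if_pos hv, Finset.erase_insert hσ', bd_apply, bd_apply, Finset.mul_sum,
      ← Finset.sum_add_distrib]
    rw [Finset.sum_eq_single v]
    · rw [if_pos hv, if_neg hσ', ← mul_assoc, sg_mul_self]; ring
    · intro w _ hwv
      by_cases hw : w ∈ σ'
      · simp [hw]
      · have hw' : w ∉ insert v σ' := by
          rw [Finset.mem_insert]; rintro (h | h); exacts [hwv h, hw h]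
        rw [if_neg hw', if_neg hw, ins_apply, if_pos (by simp)]
        have e : (insert w (insert v σ')).erase v = insert w σ' := by
          rw [Finset.insert_comm, Finset.erase_insert]
          rw [Finset.mem_insert]; rintro (h | h); exacts [hwv h.symm, hσ' h]
        rw [e]
        have h3 := sg_cross hwv hw hσ'
        linear_combination (f (insert w σ')) * h3
    · intro h; exact absurd (Finset.mem_univ v) h
  · rw [ins_apply, if_neg hv, add_zero, bd_apply, Finset.sum_eq_single v]
    · rw [if_neg hv, ins_apply, if_pos (by simp), Finset.erase_insert hv, ← mul_assoc,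
        sg_mul_self, one_mul]
    · intro w _ hwv
      by_cases hw : w ∈ σ
      · simp [hw]
      · rw [if_neg hw, ins_apply, if_neg]
        · ring
        · rw [Finset.mem_insert]; rintro (h | h); exacts [hwv h.symm, hv h]
    · intro h; exact absurd (Finset.mem_univ v) h

theorem adj_ins (v : V) (f g : Ch V) :
    ∑ σ, (if v ∈ σ then 0 else f σ * (sg v σ * g (insert v σ))) = ∑ τ, ins v f τ * g τ := by
  have h1 : ∑ σ, (if v ∈ σ then 0 else f σ * (sg v σ * g (insert v σ))) =
      ∑ σ ∈ univ.filter (fun σ : Finset V => v ∉ σ), f σ * (sg v σ * g (insert v σ)) := by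
    rw [Finset.sum_filter]
    refine Finset.sum_congr rfl fun σ _ => ?_
    by_cases h : v ∈ σ <;> simp [h]
  have h2 : ∑ τ, ins v f τ * g τ = ∑ τ ∈ univ.filter (fun τ : Finset V => v ∈ τ), ins v f τ * g τ := by
    rw [Finset.sum_filter]
    refine Finset.sum_congr rfl fun σ _ => ?_
    by_cases h : v ∈ σ
    · simp [h]
    · simp [h, ins_apply]
  rw [h1, h2]
  refine Finset.sum_bij' (fun σ _ => insert v σ) (fun τ _ => τ.erase v) ?_ ?_ ?_ ?_ ?_
  · intro σ hσ; simp
  · intro τ hτ; simp
  · intro σ hσ
    simp only [Finset.mem_filter, Finset.mem_univ, true_and] at hσ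
    exact Finset.erase_insert hσ
  · intro τ hτ
    simp only [Finset.mem_filter, Finset.mem_univ, true_and] at hτ
    exact Finset.insert_erase hτ
  · intro σ hσ
    simp only [Finset.mem_filter, Finset.mem_univ, true_and] at hσ
    rw [ins_apply, if_pos (by simp), Finset.erase_insert hσ]
    ring

/-- boundary and coboundary are adjoint -/
theorem adj (f g : Ch V) : ∑ σ, f σ * bd g σ = ∑ τ, cb f τ * g τ := by
  have h1 : ∑ σ, f σ * bd g σ =
      ∑ v, ∑ σ, (if v ∈ σ then 0 else f σ * (sg v σ * g (insert v σ))) := by
    rw [Finset.sum_comm]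
    refine Finset.sum_congr rfl fun σ _ => ?_
    rw [bd_apply, Finset.mul_sum]
    refine Finset.sum_congr rfl fun v _ => ?_
    split_ifs <;> ring
  rw [h1]
  simp only [cb, Finset.sum_mul]
  rw [Finset.sum_comm (s := univ) (t := univ) (f := fun τ v => ins v f τ * g τ)]
  exact Finset.sum_congr rfl fun v _ => adj_ins v f g

theorem del_self (σ : Finset V) : del σ σ = 1 := by simp [del]

theorem bd_del (c : Finset V) : bd (del c) = ∑ v ∈ c, sg v (c.erase v) • del (c.erase v) := by
  funext σ
  rw [bd_apply, Finset.sum_apply]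
  have h1 : (∑ v ∈ c, (sg v (c.erase v) • del (c.erase v)) σ) =
      ∑ v, if v ∈ c then sg v (c.erase v) * (if σ = c.erase v then (1 : ℝ) else 0) else 0 := by
    rw [← Finset.sum_filter]
    refine Finset.sum_congr (by ext; simp) fun v _ => ?_
    simp [del]
  rw [h1]
  refine Finset.sum_congr rfl fun v _ => ?_
  by_cases hv : v ∈ σ
  · rw [if_pos hv]
    split_ifs with h2 h3
    · exact absurd hv (h3 ▸ Finset.notMem_erase v c)
    · ring
    · rfl
  · rw [if_neg hv]
    by_cases h : insert v σ = c
    · subst h
      simp [del, Finset.erase_insert hv]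
    · simp only [del, if_neg h, mul_zero]
      split_ifs with h2 h3
      · exact absurd (by rw [h3, Finset.insert_erase h2]) h
      · ring
      · rfl

/-- the linear extension of a map given on basis chains -/
theorem sum_del (f : Ch V) : f = ∑ σ, f σ • del σ := by
  funext τ
  rw [Finset.sum_apply, Finset.sum_eq_single τ]
  · simp [del]
  · intro σ _ h
    simp [del, Ne.symm h]
  · intro h; exact absurd (Finset.mem_univ _) h

end

end ABC
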