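import Pool.Agent.ABC.Hall

/-!
# The spectral gap of an intersection of matroids

For a matroid-like independence system `I` with closure `cl`, the defect
`∑_{τ ⊆ W dependent} (d f (τ))^2` of a chain `f` supported on independent sets of size `i` is at most
`∑_σ |cl σ ∩ W| f(σ)^2`.  Summing over several systems one gets that a common harmonic chain of size
`i` vanishes as soon as `i ∑ c_q < |W|`, where `|cl_q σ ∩ W| ≤ c_q |σ|`.
-/

namespace ABC

open Finset

noncomputable section

variable {V : Type*} [Fintype V] [DecidableEq V]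

theorem cb_apply (f : Ch V) (τ : Finset V) : cb f τ = ∑ v, ins v f τ := rfl

theorem sum_ins_subset (W : Finset V) (f : Ch V) {τ : Finset V} (h : τ ⊆ W) :
    ∑ v ∈ W, ins v f τ = cb f τ := by
  rw [cb_apply]
  refine Finset.sum_subset (Finset.subset_univ W) fun v _ hv => ?_
  rw [ins_apply, if_neg fun h' => hv (h h')]

theorem sum_ins_not_subset (W : Finset V) (f : Ch V) (hf : ∀ σ, f σ ≠ 0 → σ ⊆ W) {τ : Finset V}
    (h : ¬τ ⊆ W) : ∑ v ∈ W, ins v f τ = 0 := by
  refine Finset.sum_eq_zero fun v hv => ?_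
  rw [ins_apply]
  split_ifs with h1
  · obtain ⟨x, hx, hxW⟩ := Finset.not_subset.mp h
    have : f (τ.erase v) = 0 := by
      by_contra h2
      exact hxW (hf _ h2 (Finset.mem_erase.mpr ⟨fun e => hxW (e ▸ hv), hx⟩))
    rw [this, mul_zero]
  · rfl

/-- `∂ d + d ∂ = |W|` on the full simplex with vertex set `W` -/
theorem sq_identity (W : Finset V) (f : Ch V) (hf : ∀ σ, f σ ≠ 0 → σ ⊆ W) :
    ∑ τ ∈ W.powerset, cb f τ ^ 2 + ∑ σ, bd f σ ^ 2 = W.card * ∑ σ, f σ ^ 2 := by
  have h1 : ∀ v ∈ W, ∑ σ, f σ ^ 2 = ∑ τ, cb f τ * ins v f τ + ∑ σ, f σ * ins v (bd f) σ := by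
    intro v _
    rw [← adj, ← Finset.sum_add_distrib]
    refine Finset.sum_congr rfl fun σ _ => ?_
    have h2 := congrFun (bd_ins v f) σ
    rw [Pi.add_apply] at h2
    rw [← mul_add, h2, sq]
  have h3 : (W.card : ℝ) * ∑ σ, f σ ^ 2 = ∑ v ∈ W, ∑ σ, f σ ^ 2 := by
    rw [Finset.sum_const, nsmul_eq_mul]
  rw [h3, Finset.sum_congr rfl h1, Finset.sum_add_distrib]
  congr 1
  · rw [Finset.sum_comm]
    have h4 : ∀ τ : Finset V, ∑ v ∈ W, cb f τ * ins v f τ = if τ ⊆ W then cb f τ ^ 2 else 0 := by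
      intro τ
      rw [← Finset.mul_sum]
      split_ifs with h
      · rw [sum_ins_subset W f h, sq]
      · rw [sum_ins_not_subset W f hf h, mul_zero]
    rw [Finset.sum_congr rfl fun τ _ => h4 τ, ← Finset.sum_filter]
    refine Finset.sum_congr ?_ fun _ _ => rfl
    ext τ; simp
  · rw [Finset.sum_comm]
    have h4 : ∀ σ : Finset V, ∑ v ∈ W, f σ * ins v (bd f) σ = cb (bd f) σ * f σ := by
      intro σ
      rw [← Finset.mul_sum]
      by_cases h0 : f σ = 0
      · rw [h0, zero_mul, mul_zero]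
      · rw [sum_ins_subset W (bd f) (hf σ h0), mul_comm]
    rw [Finset.sum_congr rfl fun σ _ => h4 σ, ← adj]
    refine Finset.sum_congr rfl fun σ _ => ?_
    rw [sq]

open Classical in
/-- the defect at one set -/
def dft (I : Finset V → Prop) (f : Ch V) (τ : Finset V) : ℝ :=
  if cb f τ ≠ 0 ∧ ¬I τ then cb f τ ^ 2 else 0

theorem dft_nonneg (I : Finset V → Prop) (f : Ch V) (τ : Finset V) : 0 ≤ dft I f τ := by
  unfold dft
  split_ifs
  · exact sq_nonneg _
  · exact le_rfl

/-- the defect of one matroid -/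
theorem defect (I : Finset V → Prop) (cl : Finset V → Finset V) (W : Finset V) (i : ℕ) (f : Ch V)
    (hf : ∀ σ, f σ ≠ 0 → I σ ∧ σ ⊆ W ∧ σ.card = i)
    (h0 : ∀ σ, I σ → σ ⊆ cl σ)
    (h1 : ∀ σ v, I σ → v ∉ σ → ¬I (insert v σ) → v ∈ cl σ)
    (h2 : ∀ σ σ', I σ → I σ' → σ.card = σ'.card → σ' ⊆ cl σ → cl σ' = cl σ) :
    ∑ τ ∈ W.powerset, dft I f τ ≤ ∑ σ, ((cl σ ∩ W).card : ℝ) * f σ ^ 2 := by
  classical
  let fF : Finset V → Ch V := fun F σ => if cl σ = F then f σ else 0
  have hfF : ∀ F σ, fF F σ ≠ 0 → σ ⊆ F ∩ W := by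
    intro F σ h
    simp only [fF] at h
    split_ifs at h with h3
    · obtain ⟨h4, h5, _⟩ := hf σ h
      exact Finset.subset_inter (h3 ▸ h0 σ h4) h5
    · exact absurd rfl h
  have hF : ∀ F : Finset V, ∑ τ ∈ (F ∩ W).powerset, cb (fF F) τ ^ 2 ≤
      ((F ∩ W).card : ℝ) * ∑ σ, fF F σ ^ 2 := by
    intro F
    rw [← sq_identity (F ∩ W) (fF F) (hfF F)]
    have : 0 ≤ ∑ σ, bd (fF F) σ ^ 2 := Finset.sum_nonneg fun σ _ => sq_nonneg _
    linarith
  have hloc : ∀ τ ∈ W.powerset, dft I f τ ≤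
      ∑ F : Finset V, if τ ⊆ F ∩ W then cb (fF F) τ ^ 2 else 0 := by
    intro τ hτ
    unfold dft
    have hnn : ∀ F ∈ (univ : Finset (Finset V)), 0 ≤ (if τ ⊆ F ∩ W then cb (fF F) τ ^ 2 else 0) := by
      intro F _
      split_ifs
      · exact sq_nonneg _
      · exact le_rfl
    split_ifs with h3
    · obtain ⟨h4, h5⟩ := h3
      rw [cb_apply] at h4
      obtain ⟨v, _, h6⟩ := Finset.exists_ne_zero_of_sum_ne_zero h4
      rw [ins_apply] at h6
      split_ifs at h6 with h7
      · have h8 := right_ne_zero_of_mul h6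
        obtain ⟨h9, h10, h11⟩ := hf _ h8
        have h12 : τ ⊆ cl (τ.erase v) := by
          intro x hx
          by_cases hxv : x = v
          · subst hxv
            refine h1 _ _ h9 (Finset.notMem_erase _ _) ?_
            rwa [Finset.insert_erase h7]
          · exact h0 _ h9 (Finset.mem_erase.mpr ⟨hxv, hx⟩)
        have h13 : cb f τ = cb (fF (cl (τ.erase v))) τ := by
          rw [cb_apply, cb_apply]
          refine Finset.sum_congr rfl fun w _ => ?_
          rw [ins_apply, ins_apply]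
          split_ifs with h14
          · by_cases h15 : f (τ.erase w) = 0
            · simp [fF, h15]
            · obtain ⟨h16, h17, h18⟩ := hf _ h15
              have h19 := h2 _ _ h9 h16 (h11.trans h18.symm) ((Finset.erase_subset w τ).trans h12)
              simp [fF, h19]
          · rfl
        rw [h13]
        have h20 : τ ⊆ cl (τ.erase v) ∩ W :=
          Finset.subset_inter h12 (Finset.mem_powerset.mp hτ)
        have h21 := Finset.single_le_sum hnn (Finset.mem_univ (cl (τ.erase v)))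
        rw [if_pos h20] at h21
        exact h21
      · exact absurd rfl h6
    · exact Finset.sum_nonneg hnn
  calc ∑ τ ∈ W.powerset, dft I f τ
      ≤ ∑ τ ∈ W.powerset, ∑ F : Finset V, (if τ ⊆ F ∩ W then cb (fF F) τ ^ 2 else 0) :=
        Finset.sum_le_sum hloc
    _ = ∑ F : Finset V, ∑ τ ∈ W.powerset, (if τ ⊆ F ∩ W then cb (fF F) τ ^ 2 else 0) :=
        Finset.sum_comm
    _ = ∑ F : Finset V, ∑ τ ∈ (F ∩ W).powerset, cb (fF F) τ ^ 2 := by
        refine Finset.sum_congr rfl fun F _ => ?_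
        rw [← Finset.sum_filter]
        refine Finset.sum_congr ?_ fun _ _ => rfl
        ext τ
        simp only [Finset.mem_filter, Finset.mem_powerset]
        exact ⟨fun h => h.2, fun h => ⟨h.trans Finset.inter_subset_right, h⟩⟩
    _ ≤ ∑ F : Finset V, ((F ∩ W).card : ℝ) * ∑ σ, fF F σ ^ 2 := Finset.sum_le_sum fun F _ => hF F
    _ = ∑ σ, ((cl σ ∩ W).card : ℝ) * f σ ^ 2 := by
        simp only [Finset.mul_sum]
        rw [Finset.sum_comm]
        refine Finset.sum_congr rfl fun σ _ => ?_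
        rw [Finset.sum_eq_single (cl σ)]
        · simp [fF]
        · intro F _ hne
          simp [fF, Ne.symm hne]
        · intro h; exact absurd (Finset.mem_univ _) h

/-- a chain of size `i` that is harmonic for the intersection of several matroids vanishes when
`i ∑ c_q < |W|` -/
theorem harm_zero {ι : Type*} [Fintype ι] (I : ι → Finset V → Prop)
    (cl : ι → Finset V → Finset V) (W : Finset V) (i : ℕ) (c : ι → ℝ)
    (h0 : ∀ q σ, I q σ → σ ⊆ cl q σ)
    (h1 : ∀ q σ v, I q σ → v ∉ σ → ¬I q (insert v σ) → v ∈ cl q σ)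
    (h2 : ∀ q σ σ', I q σ → I q σ' → σ.card = σ'.card → σ' ⊆ cl q σ → cl q σ' = cl q σ)
    (hc : ∀ q σ, I q σ → σ ⊆ W → ((cl q σ ∩ W).card : ℝ) ≤ c q * σ.card)
    (hlt : (∑ q, c q) * i < W.card) (f : Ch V)
    (hf : Sup (fun σ => (∀ q, I q σ) ∧ σ ⊆ W) i f) (hbd : bd f = 0)
    (hcb : ∀ τ, (∀ q, I q τ) → τ ⊆ W → cb f τ = 0) : f = 0 := by
  classical
  have e1 := sq_identity W f fun σ h => (hf σ h).1.2
  rw [hbd] at e1
  simp only [Pi.zero_apply, ne_eq, OfNat.ofNat_ne_zero, not_false_eq_true, zero_pow,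
    Finset.sum_const_zero, add_zero] at e1
  have e2 : ∑ τ ∈ W.powerset, cb f τ ^ 2 ≤
      ∑ τ ∈ W.powerset, ∑ q, dft (I q) f τ := by
    refine Finset.sum_le_sum fun τ hτ => ?_
    have hnn : ∀ q ∈ (univ : Finset ι), 0 ≤ dft (I q) f τ := fun q _ => dft_nonneg _ _ _
    by_cases h : cb f τ = 0
    · rw [h]
      simp only [ne_eq, OfNat.ofNat_ne_zero, not_false_eq_true, zero_pow]
      exact Finset.sum_nonneg hnn
    · have h3 : ¬∀ q, I q τ := fun h4 => h (hcb τ h4 (Finset.mem_powerset.mp hτ))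
      push Not at h3
      obtain ⟨q, hq⟩ := h3
      have h5 := Finset.single_le_sum hnn (Finset.mem_univ q)
      unfold dft at h5
      rw [if_pos ⟨h, hq⟩] at h5
      exact h5
  have e3 : ∀ q, ∑ τ ∈ W.powerset, dft (I q) f τ ≤
      c q * i * ∑ σ, f σ ^ 2 := by
    intro q
    refine (defect (I q) (cl q) W i f (fun σ h => ⟨(hf σ h).1.1 q, (hf σ h).1.2, (hf σ h).2⟩)
      (h0 q) (h1 q) (h2 q)).trans ?_
    rw [Finset.mul_sum]
    refine Finset.sum_le_sum fun σ _ => ?_
    by_cases h : f σ = 0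
    · rw [h]; simp
    · have h6 := hc q σ ((hf σ h).1.1 q) (hf σ h).1.2
      rw [(hf σ h).2] at h6
      exact mul_le_mul_of_nonneg_right h6 (sq_nonneg _)
  have e4 : (W.card : ℝ) * ∑ σ, f σ ^ 2 ≤ (∑ q, c q) * i * ∑ σ, f σ ^ 2 := by
    rw [← e1]
    refine e2.trans ?_
    rw [Finset.sum_comm, Finset.sum_mul, Finset.sum_mul]
    exact Finset.sum_le_sum fun q _ => e3 q
  have e5 : ∑ σ, f σ ^ 2 ≤ 0 := by
    by_contra h
    push Not at h
    have := mul_lt_mul_of_pos_right hlt h
    linarith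
  funext σ
  have e6 : f σ ^ 2 ≤ ∑ σ, f σ ^ 2 :=
    Finset.single_le_sum (f := fun σ => f σ ^ 2) (fun σ _ => sq_nonneg _) (Finset.mem_univ σ)
  have e7 : f σ ^ 2 = 0 := le_antisymm (e6.trans e5) (sq_nonneg _)
  simpa using e7

/-- Hodge theory: if there is no harmonic chain then cycles are boundaries -/
theorem exact_of_harm (C : Finset V → Prop) (hCd : ∀ σ τ, τ ⊆ σ → C σ → C τ) (i : ℕ)
    (hh : ∀ f : Ch V, Sup C i f → bd f = 0 → (∀ τ, C τ → cb f τ = 0) → f = 0) (f : Ch V)
    (hf : Sup C i f) (hb : bd f = 0) : ∃ g : Ch V, Sup C (i + 1) g ∧ bd g = f := by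
  classical
  let Y : Submodule ℝ (Ch V) :=
    { carrier := {g | Sup C (i + 1) g}
      add_mem' := by
        intro a b ha hb σ h
        by_cases h1 : a σ = 0
        · exact hb σ (by rw [Pi.add_apply, h1, zero_add] at h; exact h)
        · exact ha σ h1
      zero_mem' := by intro σ h; exact absurd rfl h
      smul_mem' := by
        intro c a ha σ h
        exact ha σ (by rw [Pi.smul_apply, smul_eq_mul] at h; exact right_ne_zero_of_mul h) }
  let e := WithLp.linearEquiv 2 ℝ (Finset V → ℝ)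
  let B : Submodule ℝ (EuclideanSpace ℝ (Finset V)) := (Y.map bd).comap e.toLinearMap
  obtain ⟨y, hy, z, hz, hyz⟩ := B.exists_add_mem_mem_orthogonal (e.symm f)
  obtain ⟨g, hg, hgy⟩ := Submodule.mem_map.mp (Submodule.mem_comap.mp hy)
  have hgy' : bd g = e y := hgy
  have hzf : e z = f - bd g := by
    have h1 : f = e y + e z := by
      have := congrArg e hyz
      rw [map_add, LinearEquiv.apply_symm_apply] at this
      exact this
    rw [hgy', h1]; abel
  have hsup : Sup C i (e z) := by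
    intro σ h
    rw [hzf, Pi.sub_apply] at h
    by_cases h1 : f σ = 0
    · rw [h1, zero_sub, neg_ne_zero, bd_apply] at h
      obtain ⟨v, _, h2⟩ := Finset.exists_ne_zero_of_sum_ne_zero h
      split_ifs at h2 with h3
      · exact absurd rfl h2
      · obtain ⟨h4, h5⟩ := hg _ (right_ne_zero_of_mul h2)
        rw [Finset.card_insert_of_notMem h3] at h5
        exact ⟨hCd _ _ (Finset.subset_insert v σ) h4, by omega⟩
    · exact hf σ h1
  have hz0 : e z = 0 := by
    refine hh _ hsup ?_ fun τ hτ => ?_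
    · rw [hzf, map_sub, hb, bd_bd, sub_zero]
    · by_cases hcard : τ.card = i + 1
      · have hdel : Sup C (i + 1) (del τ) := by
          intro σ h
          have : σ = τ := by
            by_contra h1
            exact h (by simp [del, h1])
          subst this
          exact ⟨hτ, hcard⟩
        have hmem : e.symm (bd (del τ)) ∈ B := by
          rw [Submodule.mem_comap]
          refine Submodule.mem_map.mpr ⟨del τ, hdel, ?_⟩
          simp
        have hin := (Submodule.mem_orthogonal B z).mp hz _ hmem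
        have hin2 : ∑ σ, e z σ * bd (del τ) σ = 0 := by
          rw [PiLp.inner_apply] at hin
          rw [← hin]
          refine Finset.sum_congr rfl fun σ _ => ?_
          rfl
        rw [adj] at hin2
        rw [Finset.sum_eq_single τ] at hin2
        · rwa [del_self, mul_one] at hin2
        · intro σ _ h
          simp [del, h]
        · intro h; exact absurd (Finset.mem_univ _) h
      · rw [cb_apply]
        refine Finset.sum_eq_zero fun v _ => ?_
        rw [ins_apply]
        split_ifs with h1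
        · have : e z (τ.erase v) = 0 := by
            by_contra h2
            have h3 := (hsup _ h2).2
            have h4 := Finset.card_erase_add_one h1
            omega
          rw [this, mul_zero]
        · rfl
  refine ⟨g, hg, ?_⟩
  have := hzf
  rw [hz0] at this
  exact (sub_eq_zero.mp this.symm).symm

/-- **Spectral vanishing theorem** for an intersection of matroids. -/
theorem acy_inter {ι : Type*} [Fintype ι] (I : ι → Finset V → Prop)
    (cl : ι → Finset V → Finset V) (W : Finset V) (n : ℕ) (c : ι → ℝ)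
    (hd : ∀ q σ τ, τ ⊆ σ → I q σ → I q τ)
    (h0 : ∀ q σ, I q σ → σ ⊆ cl q σ)
    (h1 : ∀ q σ v, I q σ → v ∉ σ → ¬I q (insert v σ) → v ∈ cl q σ)
    (h2 : ∀ q σ σ', I q σ → I q σ' → σ.card = σ'.card → σ' ⊆ cl q σ → cl q σ' = cl q σ)
    (hc : ∀ q σ, I q σ → σ ⊆ W → ((cl q σ ∩ W).card : ℝ) ≤ c q * σ.card)
    (hlt : ∀ i < n, (∑ q, c q) * i < W.card) : Acy n (fun σ => (∀ q, I q σ) ∧ σ ⊆ W) := by
  intro i hi f hf hb
  refine exact_of_harm _ (fun σ τ h1 h2 => ⟨fun q => hd q σ τ h1 (h2.1 q), h1.trans h2.2⟩) i ?_ f hf hb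
  intro f hf hb hcb
  exact harm_zero I cl W i c h0 h1 h2 hc (hlt i hi) f hf hb fun τ h3 h4 => hcb τ ⟨h3, h4⟩

end

end ABC
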