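import Pool.Agent.ABC.Hall

/-!
# Cones, and adding a vertex to a complex
-/

namespace ABC

open Finset

noncomputable section

variable {V : Type*} [Fintype V] [DecidableEq V]

theorem Acy.mono {n n' : ℕ} (h : n' ≤ n) {C : Finset V → Prop} (hC : Acy n C) : Acy n' C :=
  fun i hi f hf hb => hC i (lt_of_lt_of_le hi h) f hf hb

/-- a cone is acyclic -/
theorem acy_cone (v : V) (n : ℕ) (C : Finset V → Prop) (h : ∀ σ, C σ → C (insert v σ)) :
    Acy n C := by
  intro i _ f hf hb
  refine ⟨ins v f, fun τ hτ => ?_, ?_⟩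
  · rw [ins_apply] at hτ
    split_ifs at hτ with h1
    · obtain ⟨h2, h3⟩ := hf _ (right_ne_zero_of_mul hτ)
      have h4 := h _ h2
      rw [Finset.insert_erase h1] at h4
      exact ⟨h4, by rw [← Finset.card_erase_add_one h1, h3]⟩
    · exact absurd rfl hτ
  · have := bd_ins v f
    rw [hb, map_zero, add_zero] at this
    exact this

/-- interior multiplication -/
def ctr (v : V) (f : Ch V) : Ch V := fun ρ => if v ∈ ρ then 0 else sg v ρ * f (insert v ρ)

theorem bd_ctr (v : V) (f : Ch V) (hf : bd f = 0) : bd (ctr v f) = 0 := by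
  funext ρ
  rw [bd_apply, Pi.zero_apply]
  by_cases hv : v ∈ ρ
  · refine Finset.sum_eq_zero fun w _ => ?_
    split_ifs
    · rfl
    · have : v ∈ insert w ρ := Finset.mem_insert_of_mem hv
      rw [ctr, if_pos this, mul_zero]
  · have h1 : ∑ w, (if w ∈ ρ then 0 else sg w ρ * ctr v f (insert w ρ)) =
        -(sg v ρ * bd f (insert v ρ)) := by
      rw [bd_apply, Finset.mul_sum, ← Finset.sum_neg_distrib]
      refine Finset.sum_congr rfl fun w _ => ?_
      by_cases hw : w ∈ ρ
      · rw [if_pos hw, if_pos (Finset.mem_insert_of_mem hw)]; ring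
      · rw [if_neg hw]
        by_cases hwv : w = v
        · subst hwv
          rw [if_pos (Finset.mem_insert_self _ _), ctr, if_pos (Finset.mem_insert_self _ _)]
          ring
        · have h2 : w ∉ insert v ρ := by
            rw [Finset.mem_insert]; rintro (h | h); exacts [hwv h, hw h]
          have h3 : v ∉ insert w ρ := by
            rw [Finset.mem_insert]; rintro (h | h); exacts [hwv h.symm, hv h]
          rw [if_neg h2, ctr, if_neg h3, Finset.insert_comm v w ρ]
          have h4 := sg_insert_comm (Ne.symm hwv) hv hw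
          linear_combination (f (insert w (insert v ρ))) * h4
    rw [h1, hf]
    simp

/-- adding a vertex -/
theorem acy_step (v : V) (n : ℕ) (C : Finset V → Prop) (hCd : ∀ σ τ, τ ⊆ σ → C σ → C τ)
    (hA : Acy n (fun σ => C σ ∧ v ∉ σ)) (hL : Acy (n - 1) (fun σ => v ∉ σ ∧ C (insert v σ))) :
    Acy n C := by
  intro i hi f hf hb
  rcases Nat.eq_zero_or_pos i with h0 | h0
  · subst h0
    obtain ⟨g, hg, hgb⟩ := hA 0 hi f (fun σ h => by
      obtain ⟨h1, h2⟩ := hf σ h
      rw [Finset.card_eq_zero] at h2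
      subst h2
      exact ⟨⟨h1, by simp⟩, by simp⟩) hb
    exact ⟨g, fun σ h => ⟨(hg σ h).1.1, (hg σ h).2⟩, hgb⟩
  · have hh : Sup (fun σ => v ∉ σ ∧ C (insert v σ)) (i - 1) (ctr v f) := by
      intro ρ hρ
      unfold ctr at hρ
      split_ifs at hρ with h1
      · exact absurd rfl hρ
      · obtain ⟨h2, h3⟩ := hf _ (right_ne_zero_of_mul hρ)
        rw [Finset.card_insert_of_notMem h1] at h3
        exact ⟨⟨h1, h2⟩, by omega⟩
    obtain ⟨h', hh', hhb⟩ := hL (i - 1) (by omega) _ hh (bd_ctr v f hb)
    have hi1 : i - 1 + 1 = i := by omega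
    rw [hi1] at hh'
    have h5 := bd_ins v h'
    rw [hhb] at h5
    have h6 : ∀ σ, v ∈ σ → ins v (ctr v f) σ = f σ := by
      intro σ hσ
      rw [ins_apply, if_pos hσ, ctr, if_neg (Finset.notMem_erase v σ), Finset.insert_erase hσ,
        ← mul_assoc, sg_mul_self, one_mul]
    have h7 : ∀ σ, v ∉ σ → ins v (ctr v f) σ = 0 := by
      intro σ hσ
      rw [ins_apply, if_neg hσ]
    obtain ⟨g', hg', hgb'⟩ := hA i hi (f + bd (ins v h')) (fun σ h => by
      have h8 : (f + bd (ins v h')) σ = f σ + (h' σ - ins v (ctr v f) σ) := by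
        have := congrFun h5 σ
        rw [Pi.add_apply] at this
        rw [Pi.add_apply]
        linarith
      rw [h8] at h
      by_cases hv : v ∈ σ
      · exfalso
        rw [h6 σ hv] at h
        have : h' σ = 0 := by
          by_contra h9
          exact (hh' σ h9).1.1 hv
        rw [this] at h
        apply h; ring
      · rw [h7 σ hv, sub_zero] at h
        by_cases h10 : f σ = 0
        · rw [h10, zero_add] at h
          obtain ⟨⟨_, h11⟩, h12⟩ := hh' σ h
          exact ⟨⟨hCd _ _ (Finset.subset_insert v σ) h11, hv⟩, h12⟩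
        · exact ⟨⟨(hf σ h10).1, hv⟩, (hf σ h10).2⟩) (by rw [map_add, hb, bd_bd, add_zero])
    refine ⟨g' - ins v h', fun σ h => ?_, ?_⟩
    · rw [Pi.sub_apply] at h
      by_cases h1 : g' σ = 0
      · rw [h1, zero_sub, neg_ne_zero, ins_apply] at h
        split_ifs at h with h2
        · obtain ⟨⟨_, h3⟩, h4⟩ := hh' _ (right_ne_zero_of_mul h)
          rw [Finset.insert_erase h2] at h3
          exact ⟨h3, by rw [← Finset.card_erase_add_one h2, h4]⟩
        · exact absurd rfl h
      · exact ⟨(hg' σ h1).1.1, (hg' σ h1).2⟩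
    · rw [map_sub, hgb']
      abel

end

end ABC
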